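import Pool.Agent.MTD.Weyl

/-!
# MTX/D : abstract Moore–Tachikawa data, weakened axioms

`MTD.Ax` with weights of arbitrary multiplicity, index order compatible with a height function,
and Weyl representatives that need not be monomial matrices.  The data `Dat`, the rings `MTR` and
all derived notions (`IsG`, `Dx`, `Tt`, `Y`, ...) are those of `MTD`.
-/

namespace Pool.Agent.MTXD

open Matrix
open Pool.Agent.MP_c45d35_ag (chi UpUni LowUni)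
open Pool.Agent.MTD (Dat ev expN Idx co Pt MTR srT)

/-- The conditions on the data. -/
structure Ax {n N : ℕ} {ι : Type} [Fintype ι] (D : Dat n N ι) : Prop where
  mult : ∀ {R : Type} [CommRing R] [Algebra ℂ R] (g : Matrix (Fin N) (Fin N) R), D.IsG g →
    (∀ i j, j < i → g i j = 0) → ∀ i j, D.wt i = D.wt j → i ≠ j → g i j = 0
  wt_std : ∀ k, ∃ i, D.wt i = Pi.single k 1
  rt_indep : ∀ (β γ : ι) (a b : ℤ), β ≠ γ → a • D.rt β = b • D.rt γ → a = 0 ∧ b = 0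
  lexpos : ∀ β, 0 < toLex (D.rt β)
  cr_rt : ∀ β, ev (D.cr β) (D.rt β) = 2
  cr_sep : ∀ μ : Fin n → ℤ, (∀ β, ev (D.cr β) μ = 0) → μ = 0
  refl_rt : ∀ β γ, ∃ γ', D.sw β (D.rt γ) = D.rt γ' ∨ D.sw β (D.rt γ) = - D.rt γ'
  E_supp : ∀ β i j, D.E β i j ≠ 0 → i < j ∧ D.wt i - D.wt j = D.rt β
  hgt : ∃ hg : Fin N → ℤ, (∀ i j, i ≤ j → hg j ≤ hg i) ∧
    ∀ β i j, D.E β i j ≠ 0 → hg i = hg j + D.dep β
  E_ne : ∀ β, D.E β ≠ 0
  dep_pos : ∀ β, 0 < D.dep β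
  mul : ∀ {R : Type} [CommRing R] [Algebra ℂ R] (g h : Matrix (Fin N) (Fin N) R),
    D.IsG g → D.IsG h → D.IsG (g * h)
  det : ∀ {R : Type} [CommRing R] [Algebra ℂ R] (g : Matrix (Fin N) (Fin N) R), D.IsG g → g.det = 1
  inv : ∀ {R : Type} [CommRing R] [Algebra ℂ R] (g : Matrix (Fin N) (Fin N) R),
    D.IsG g → D.IsG g⁻¹
  torus : ∀ {R : Type} [CommRing R] [Algebra ℂ R] (t : Fin n → Rˣ), D.IsG (D.Tt t)
  exp : ∀ {R : Type} [CommRing R] [Algebra ℂ R] (Z : ι → R), D.IsG (expN (D.Y Z))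
  conj : ∀ {R : Type} [CommRing R] [Algebra ℂ R] (g : Matrix (Fin N) (Fin N) R) (x : Fin n → R)
    (Z : ι → R), D.IsG g → (∀ i j, j < i → g i j = 0) →
    ∃ Z' : ι → R, g * (D.Dx x + D.Y Z) = (D.Dx x + D.Y Z') * g
  levi : ∀ {K : Type} [Field K] [Algebra ℂ K] (g : Matrix (Fin N) (Fin N) K), D.IsG g →
    (∀ i j, j < i → g i j = 0) → ∃ t : Fin n → Kˣ, ∀ i, g i i = ((chi (D.wt i) t : Kˣ) : K)
  cent : ∀ (g : Matrix (Fin N) (Fin N) ℂ) (x : Fin n → ℂ), D.IsG g → D.Reg x →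
    Commute g (D.Dx x) → ∃ t : Fin n → ℂˣ, g = D.Tt t
  weyl : ∀ β, ∃ w : Matrix (Fin N) (Fin N) ℂ, D.IsG w ∧
    (∀ x : Fin n → ℂ, w * D.Dx x = D.Dx (D.sr β x) * w) ∧
    ∀ t : Fin n → ℂˣ, D.Tt t * w = w * D.Tt (srT D β t)
  iwa : ∀ {K : Type} [Field K] [Algebra ℂ K] (V : ValuationSubring K),
    (∀ z : ℂ, algebraMap ℂ K z ∈ V) → ∀ g : Matrix (Fin N) (Fin N) K, D.IsG g →
    ∃ k b : Matrix (Fin N) (Fin N) K, D.IsG k ∧ (∀ i j, k i j ∈ V) ∧ D.IsG b ∧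
      (∀ i j, j < i → b i j = 0) ∧ g = k * b
  px_G : D.IsG D.px
  px_conj : D.px * (D.Y (fun β => MvPolynomial.C (D.ze β)) + D.Dx MvPolynomial.X) = D.sx * D.px
  sx_mem : ∀ x : Fin n → ℂ, D.sx.map (MvPolynomial.eval x) ∈ D.S
  sx_surj : ∀ s ∈ D.S, ∃ x : Fin n → ℂ, s = D.sx.map (MvPolynomial.eval x)
  sx_refl : ∀ (β : ι) (x : Fin n → ℂ),
    D.sx.map (MvPolynomial.eval (D.sr β x)) = D.sx.map (MvPolynomial.eval x)
  nonss : ∀ (β : ι) (x : Fin n → ℂ), D.GenW β x →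
    ¬ ∃ g : Matrix (Fin N) (Fin N) ℂ, IsUnit g.det ∧ g * D.Dx x = (D.Dx x + D.e) * g
  zc : ∀ β, ∃ z : Fin n → ℂˣ, (∀ γ, chi (D.rt γ) z = 1) ∧
    ∀ ν : Fin n → ℤ, (∃ a b : ℤ, a ≠ 0 ∧ a • ν = b • D.rt β) → chi ν z = 1 →
      ∃ k : ℤ, ν = k • D.rt β

end Pool.Agent.MTXD
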