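import Pool.Agent.MTD.Basic
import Pool.Agent.MTX.D.Defs

/-! # MTX/D : basic lemmas -/

namespace Pool.Agent.MTXD

open Pool.Agent.MTD

open Matrix
open Pool.Agent.MP_c45d35_ag (chi UpUni LowUni chi_add chi_mul chi_zero chi_one chi_inv chi_map)

namespace Ax

variable {n N : ℕ} {ι : Type} [Fintype ι] {D : Dat n N ι} (A : Ax D)
include A

theorem ne_zero_rt (β : ι) : D.rt β ≠ 0 := by
  intro h
  have h1 := A.lexpos β
  rw [h] at h1
  exact lt_irrefl _ h1

theorem rt_inj {β γ : ι} (h : D.rt β = D.rt γ) : β = γ := by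
  by_contra hne
  have := A.rt_indep β γ 1 1 hne (by rw [h])
  exact one_ne_zero this.1

theorem E_supp_lt {β : ι} {i j : Fin N} (h : D.E β i j ≠ 0) : i < j := (A.E_supp β i j h).1

theorem Y_upper {R : Type*} [CommRing R] [Algebra ℂ R] (Z : ι → R) (i j : Fin N) (h : j ≤ i) :
    D.Y Z i j = 0 := by
  rw [D.Y_apply]
  refine Finset.sum_eq_zero fun β _ => ?_
  have h1 : D.E β i j = 0 := by
    by_contra hne
    exact absurd (A.E_supp_lt hne) (not_lt.2 h)
  rw [h1, map_zero, mul_zero]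

/-- the entries of `Y Z` read off the coefficients -/
theorem Y_entry {R : Type*} [CommRing R] [Algebra ℂ R] (Z : ι → R) {β : ι} {i j : Fin N}
    (h : D.E β i j ≠ 0) : D.Y Z i j = Z β * algebraMap ℂ R (D.E β i j) := by
  rw [D.Y_apply, Finset.sum_eq_single β]
  · intro γ _ hγ
    have h1 : D.E γ i j = 0 := by
      by_contra hne
      have h2 := (A.E_supp β i j h).2
      have h3 := (A.E_supp γ i j hne).2
      exact hγ (A.rt_inj (h3.symm.trans h2))
    rw [h1, map_zero, mul_zero]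
  · intro h1
    exact absurd (Finset.mem_univ β) h1

/-- an entry of `Y Z` outside the positions of roots vanishes -/
theorem Y_entry_zero {R : Type*} [CommRing R] [Algebra ℂ R] (Z : ι → R) {i j : Fin N}
    (h : ∀ β, D.wt i - D.wt j ≠ D.rt β) : D.Y Z i j = 0 := by
  rw [D.Y_apply]
  refine Finset.sum_eq_zero fun β _ => ?_
  have h1 : D.E β i j = 0 := by
    by_contra hne
    exact h β (A.E_supp β i j hne).2
  rw [h1, map_zero, mul_zero]

/-- every root vector has a nonzero entry -/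
theorem exists_entry (β : ι) : ∃ i j, D.E β i j ≠ 0 := by
  by_contra h
  push Not at h
  apply A.E_ne β
  ext i j
  exact h i j

theorem Y_inj {R : Type*} [CommRing R] [Algebra ℂ R] {Z Z' : ι → R} (h : D.Y Z = D.Y Z') :
    Z = Z' := by
  funext β
  obtain ⟨i, j, hij⟩ := A.exists_entry β
  have h1 := congrFun (congrFun h i) j
  rw [A.Y_entry Z hij, A.Y_entry Z' hij] at h1
  have hu : IsUnit (algebraMap ℂ R (D.E β i j)) := (isUnit_iff_ne_zero.2 hij).map _
  exact hu.mul_right_cancel h1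

theorem DxY_upper {R : Type*} [CommRing R] [Algebra ℂ R] (x : Fin n → R) (Z : ι → R)
    (i j : Fin N) (h : j < i) : (D.Dx x + D.Y Z) i j = 0 := by
  rw [Matrix.add_apply, A.Y_upper Z i j h.le, add_zero]
  exact Matrix.diagonal_apply_ne _ (ne_of_gt h)

theorem DxY_diag {R : Type*} [CommRing R] [Algebra ℂ R] (x : Fin n → R) (Z : ι → R)
    (i : Fin N) : (D.Dx x + D.Y Z) i i = ev (D.wt i) x := by
  rw [Matrix.add_apply, A.Y_upper Z i i le_rfl, add_zero]
  exact Matrix.diagonal_apply_eq _ _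

theorem one {R : Type} [CommRing R] [Algebra ℂ R] : D.IsG (1 : Matrix (Fin N) (Fin N) R) := by
  have h := A.torus (1 : Fin n → Rˣ)
  rwa [D.Tt_one] at h

theorem inv_mul {R : Type} [CommRing R] [Algebra ℂ R] {g : Matrix (Fin N) (Fin N) R}
    (hg : D.IsG g) : g⁻¹ * g = 1 :=
  Matrix.nonsing_inv_mul g (by rw [A.det g hg]; exact isUnit_one)

theorem mul_inv {R : Type} [CommRing R] [Algebra ℂ R] {g : Matrix (Fin N) (Fin N) R}
    (hg : D.IsG g) : g * g⁻¹ = 1 :=
  Matrix.mul_nonsing_inv g (by rw [A.det g hg]; exact isUnit_one)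

/-- the inverse is the adjugate -/
theorem inv_eq {R : Type} [CommRing R] [Algebra ℂ R] {g : Matrix (Fin N) (Fin N) R}
    (hg : D.IsG g) : g⁻¹ = g.adjugate := by
  rw [Matrix.inv_def, A.det g hg]
  simp

/-- `E_β` is a weight vector of the torus -/
theorem Tt_E {R : Type*} [CommRing R] [Algebra ℂ R] (t : Fin n → Rˣ) (β : ι) :
    D.Tt t * (D.E β).map (algebraMap ℂ R) =
      ((chi (D.rt β) t : Rˣ) : R) • ((D.E β).map (algebraMap ℂ R) * D.Tt t) := by
  ext i j
  unfold Dat.Tt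
  rw [Matrix.smul_apply, Matrix.diagonal_mul, Matrix.mul_diagonal, Matrix.map_apply, smul_eq_mul]
  by_cases h : D.E β i j = 0
  · rw [h, map_zero]; simp
  · have h1 := (A.E_supp β i j h).2
    have h2 : D.wt i = D.rt β + D.wt j := by rw [← h1]; abel
    rw [h2, chi_add]
    push_cast
    ring

/-- conjugation of `Y Z` by the torus -/
theorem Tt_Y {R : Type*} [CommRing R] [Algebra ℂ R] (t : Fin n → Rˣ) (Z : ι → R) :
    D.Tt t * D.Y Z = D.Y (fun β => ((chi (D.rt β) t : Rˣ) : R) * Z β) * D.Tt t := by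
  unfold Dat.Y
  rw [Finset.mul_sum, Finset.sum_mul]
  refine Finset.sum_congr rfl fun β _ => ?_
  rw [Matrix.mul_smul, A.Tt_E, Matrix.smul_mul, smul_smul, mul_comm (Z β)]

theorem sr_reg {x : Fin n → ℂ} (hx : D.Reg x) (β : ι) : D.Reg (D.sr β x) := by
  intro γ
  rw [D.ev_sr]
  obtain ⟨γ', h | h⟩ := A.refl_rt β γ
  · rw [h]; exact hx γ'
  · rw [h, ev_neg_left]; exact neg_ne_zero.2 (hx γ')

theorem sw_sw (β : ι) (μ : Fin n → ℤ) : D.sw β (D.sw β μ) = μ := by
  unfold Dat.sw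
  have h1 : ev (D.cr β) (μ - ev (D.cr β) μ • D.rt β) = - ev (D.cr β) μ := by
    rw [ev_sub]
    have : ev (D.cr β) (ev (D.cr β) μ • D.rt β) = ev (D.cr β) μ * ev (D.cr β) (D.rt β) :=
      ev_smul _ _ _
    rw [this, A.cr_rt]
    ring
  rw [h1]
  module

theorem ev_cr_sw (β : ι) (μ : Fin n → ℤ) : ev (D.cr β) (D.sw β μ) = - ev (D.cr β) μ := by
  unfold Dat.sw
  rw [ev_sub]
  have : ev (D.cr β) (ev (D.cr β) μ • D.rt β) = ev (D.cr β) μ * ev (D.cr β) (D.rt β) :=
    ev_smul _ _ _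
  rw [this, A.cr_rt]
  ring

end Ax

end Pool.Agent.MTXD
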