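import Pool.Agent.MTD.Exp1
import Pool.Agent.MTX.D.Red

/-! # MTX/D : pointwise objects over `ℂ`, algebras of functions with denominators

Port of `Pool/Agent/MP_c45d35_ag/Expand.lean`. -/

namespace Pool.Agent.MTXD

open Pool.Agent.MTD

open Matrix
open Pool.Agent.MP_c45d35_ag (chi UpUni LowUni)

namespace Dat

variable {n N : ℕ} {ι : Type} [Fintype ι] (D : Dat n N ι)

end Dat

namespace Ax

variable {n N : ℕ} {ι : Type} [Fintype ι] {D : Dat n N ι} (A : Ax D)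
include A

theorem sC_mem (x : Fin n → ℂ) : D.sC x ∈ D.S := A.sx_mem x

theorem exists_sC {s : Matrix (Fin N) (Fin N) ℂ} (hs : s ∈ D.S) : ∃ x : Fin n → ℂ, s = D.sC x :=
  A.sx_surj s hs

theorem sC_sr (β : ι) (x : Fin n → ℂ) : D.sC (D.sr β x) = D.sC x := A.sx_refl β x

theorem pC_isG (x : Fin n → ℂ) : D.IsG (D.pC x) := by
  have h := A.px_G.map (MvPolynomial.aeval x : MvPolynomial (Fin n) ℂ →ₐ[ℂ] ℂ)
  exact h

theorem pC_conj (x : Fin n → ℂ) : D.pC x * (D.Dx x + D.e) = D.sC x * D.pC x := by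
  have h := congrArg (fun M => M.map (MvPolynomial.eval x)) A.px_conj
  simp only [Matrix.map_mul, Matrix.map_add _ (map_add (MvPolynomial.eval x)), D.Dx_map,
    MvPolynomial.eval_X] at h
  have h2 : (D.Y (fun β => (MvPolynomial.C (D.ze β) : MvPolynomial (Fin n) ℂ))).map
      (MvPolynomial.eval x) = D.e := by
    have := D.Y_map (MvPolynomial.aeval x : MvPolynomial (Fin n) ℂ →ₐ[ℂ] ℂ)
      (fun β => (MvPolynomial.C (D.ze β) : MvPolynomial (Fin n) ℂ))
    simp only [MvPolynomial.aeval_C] at this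
    exact this
  rw [h2, add_comm] at h
  exact h

theorem isUnit_reg {x : Fin n → ℂ} (hx : D.Reg x) (β : ι) : IsUnit (ev (D.rt β) x) :=
  (hx β).isUnit

theorem ueC_spec {x : Fin n → ℂ} (hx : D.Reg x) :
    UpUni (D.ueC x) ∧ D.IsG (D.ueC x) ∧ D.ueC x * D.Dx x = (D.Dx x + D.e) * D.ueC x := by
  have h : ∃ u : Matrix (Fin N) (Fin N) ℂ, UpUni u ∧ D.IsG u ∧
      u * D.Dx x = (D.Dx x + D.e) * u := A.exists_u x (A.isUnit_reg hx) D.ze
  unfold Dat.ueC
  rw [dif_pos h]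
  exact h.choose_spec

theorem ueC_upUni (x : Fin n → ℂ) : UpUni (D.ueC x) := by
  unfold Dat.ueC
  split_ifs with h
  · exact h.choose_spec.1
  · exact Pool.Agent.MP_c45d35_ag.UpUni.one

theorem ueC_isG (x : Fin n → ℂ) : D.IsG (D.ueC x) := by
  unfold Dat.ueC
  split_ifs with h
  · exact h.choose_spec.2.1
  · exact A.one

theorem ueC_conj {x : Fin n → ℂ} (hx : D.Reg x) :
    D.ueC x * D.Dx x = (D.Dx x + D.e) * D.ueC x := (A.ueC_spec hx).2.2

theorem ueC_unique {x : Fin n → ℂ} (hx : D.Reg x) {u : Matrix (Fin N) (Fin N) ℂ} (hu : UpUni u)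
    (hG : D.IsG u) (h : u * D.Dx x = (D.Dx x + D.e) * u) : u = D.ueC x :=
  A.u_unique x (A.isUnit_reg hx) _ _ _ hu (A.ueC_upUni x) hG (A.ueC_isG x) h (A.ueC_conj hx)

theorem qC_isG (x : Fin n → ℂ) : D.IsG (D.qC x) := A.mul _ _ (A.pC_isG x) (A.ueC_isG x)

theorem qC_conj {x : Fin n → ℂ} (hx : D.Reg x) : D.qC x * D.Dx x = D.sC x * D.qC x := by
  unfold Dat.qC
  rw [Matrix.mul_assoc, A.ueC_conj hx, ← Matrix.mul_assoc, A.pC_conj, Matrix.mul_assoc]

end Ax

/-! ## Algebras of functions with denominators `β(x)` -/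

section rat
variable {n N : ℕ} {ι : Type} {D : Dat n N ι} {Y : Type}

variable [Fintype ι]

/-- The entries of the solution `u ∈ G`, unipotent, of `u x = (x + Y Z) u` lie in the algebra if
the coefficients `Z_β` do. -/
theorem Rt_tri (A : Ax D) (X : Y → D.RegX) (S : Set (Y → ℂ)) (Z : Y → ι → ℂ)
    (hZ : ∀ β, (fun y => Z y β) ∈ Rt D X S) (u : Y → Matrix (Fin N) (Fin N) ℂ)
    (hu : ∀ y, UpUni (u y)) (hG : ∀ y, D.IsG (u y))
    (h : ∀ y, u y * D.Dx (X y).1 = (D.Dx (X y).1 + D.Y (Z y)) * u y) :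
    ∀ i j, (fun y => u y i j) ∈ Rt D X S := by
  let x' : Fin n → Rt D X S := fun k => ⟨_, Rt_x X S k⟩
  let Z' : ι → Rt D X S := fun β => ⟨_, hZ β⟩
  have hev : ∀ μ : Fin n → ℤ, ((ev μ x' : Rt D X S) : Y → ℂ) = fun y => ev μ (X y).1 := by
    intro μ
    have := ev_map (Rt D X S).val.toRingHom μ x'
    funext y
    have h2 := congrFun this y
    rw [show ((ev μ x' : Rt D X S) : Y → ℂ) y = (Rt D X S).val.toRingHom (ev μ x') y from rfl, h2]
    have h3 := ev_map (Pi.evalRingHom (fun _ : Y => ℂ) y) μ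
      (fun k => (Rt D X S).val.toRingHom (x' k))
    exact h3
  have hx : ∀ β, IsUnit (ev (D.rt β) x') := by
    intro β
    refine IsUnit.of_mul_eq_one ⟨_, Rt_inv X S β⟩ ?_
    apply Subtype.ext
    rw [MulMemClass.coe_mul, hev]
    funext y
    exact mul_inv_cancel₀ ((X y).2 β)
  obtain ⟨v, hv, hvG, hvc⟩ := A.exists_u x' hx Z'
  have key : ∀ y, u y = v.map fun a => (a : Y → ℂ) y := by
    intro y
    let φ : Rt D X S →ₐ[ℂ] ℂ := (Pi.evalAlgHom ℂ (fun _ : Y => ℂ) y).comp (Rt D X S).val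
    have h1 : UpUni (v.map φ) := UpUni.map φ.toRingHom hv
    have h2 : D.IsG (v.map φ) := hvG.map φ
    have h3 : v.map φ * D.Dx (X y).1 = (D.Dx (X y).1 + D.Y (Z y)) * v.map φ := by
      have h4 := congrArg (fun M => M.map φ.toRingHom) hvc
      simp only [Matrix.map_mul, Matrix.map_add _ (map_add φ.toRingHom), D.Dx_map] at h4
      have h5 : (D.Y Z').map φ.toRingHom = D.Y fun β => φ (Z' β) := D.Y_map φ Z'
      rw [h5] at h4
      exact h4
    exact A.u_unique (X y).1 (A.isUnit_reg (X y).2) _ _ _ (hu y) h1 (hG y) h2 (h y) h3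
  intro i j
  have : (fun y => u y i j) = ((v i j : Rt D X S) : Y → ℂ) := by
    funext y
    rw [key y]
    rfl
  rw [this]
  exact (v i j).2

theorem Rt_ueC (A : Ax D) (X : Y → D.RegX) (S : Set (Y → ℂ)) : ∀ i j : Fin N,
    (fun y => D.ueC (X y).1 i j) ∈ Rt D X S :=
  Rt_tri A X S (fun _ => D.ze) (fun _ => Rt_const X S _) _ (fun _ => A.ueC_upUni _)
    (fun _ => A.ueC_isG _) (fun y => A.ueC_conj (X y).2)

theorem Rt_qC (A : Ax D) (X : Y → D.RegX) (S : Set (Y → ℂ)) : ∀ i j : Fin N,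
    (fun y => D.qC (X y).1 i j) ∈ Rt D X S := Rt_mul (Rt_pC X S) (Rt_ueC A X S)

theorem Rt_qCinv (A : Ax D) (X : Y → D.RegX) (S : Set (Y → ℂ)) : ∀ i j : Fin N,
    (fun y => (D.qC (X y).1)⁻¹ i j) ∈ Rt D X S := by
  simp only [A.inv_eq (A.qC_isG _)]
  exact Rt_adj (Rt_qC A X S)

end rat

end Pool.Agent.MTXD
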