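import Pool.Agent.MTD.Exp2
import Pool.Agent.MTX.D.Exp1
import Pool.Agent.MP_c45d35_ag.WeylChar

namespace Pool.Agent.MTXD

open Pool.Agent.MTD

open Matrix
open Pool.Agent.MP_c45d35_ag (chi UpUni LowUni chi_add chi_mul chi_zero chi_one chi_inv chi_map chi_indep)

/-! ## The expansion in torus weights -/

section expansion
variable {n N : ℕ} {ι : Type} [Fintype ι]

variable {D : Dat n N ι} {b : ℕ}

theorem cf_mem (A : Ax D) (P : MvPolynomial (Idx N (b + 1)) ℂ) (μ : Fin n → ℤ) :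
    cf D P μ ∈ Rt D (fun y : XX D (b + 1) => y.2) (gS D (b + 1)) := by
  unfold cf Lx
  induction P using MvPolynomial.induction_on generalizing μ with
  | C a =>
    rw [MvPolynomial.aeval_C]
    have : (algebraMap ℂ (LL D b)) a = AddMonoidAlgebra.single 0 (fun _ => a) := rfl
    rw [this, AddMonoidAlgebra.coeff_single]
    classical
    rw [Finsupp.single_apply]
    split_ifs
    · exact Rt_const _ _ a
    · exact Subalgebra.zero_mem _
  | add p q hp hq =>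
    rw [map_add, AddMonoidAlgebra.coeff_add, Finsupp.add_apply]
    exact Subalgebra.add_mem _ (hp μ) (hq μ)
  | mul_X p i hp =>
    rw [map_mul, MvPolynomial.aeval_X]
    have hg : ∀ (a : Fin (b + 1)) (i l : Fin N),
        (fun y : XX D (b + 1) => (y.1 a).1 i l) ∈ Rt D (fun y : XX D (b + 1) => y.2) (gS D (b + 1)) :=
      fun a i l => Rt_of_mem ⟨a, i, l, rfl⟩
    rcases i with ⟨a, i, j⟩ | ⟨i, j⟩
    · simp only [genL, Finset.mul_sum]
      rw [AddMonoidAlgebra.coeff_sum, Finsupp.finsetSum_apply]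
      refine Subalgebra.sum_mem _ fun l _ => ?_
      rw [AddMonoidAlgebra.coeff_mul_single_apply]
      refine Subalgebra.mul_mem _ (hp _) ?_
      exact Subalgebra.mul_mem _ (hg a i l) (Rt_qCinv A (fun y : XX D (b + 1) => y.2) _ l j)
    · simp only [genL]
      rw [AddMonoidAlgebra.coeff_mul_single_apply]
      exact Subalgebra.mul_mem _ (hp _) (Rt_sC (fun y : XX D (b + 1) => y.2) _ i j)

/-! ## Invariant polynomials -/

/-- the torus in the centralizer of `s(x)` -/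
theorem qTq_commute (A : Ax D) (x : D.RegX) (t : Fin n → ℂˣ) :
    D.IsG (D.qC x.1 * D.Tt t * (D.qC x.1)⁻¹) ∧ Commute (D.qC x.1 * D.Tt t * (D.qC x.1)⁻¹) (D.sC x.1) := by
  refine ⟨A.mul _ _ (A.mul _ _ (A.qC_isG x.1) (A.torus t)) (A.inv _ (A.qC_isG x.1)), ?_⟩
  have h1 := A.qC_conj x.2
  have h2 : (D.qC x.1)⁻¹ * D.sC x.1 = D.Dx x.1 * (D.qC x.1)⁻¹ := by
    calc (D.qC x.1)⁻¹ * D.sC x.1 = (D.qC x.1)⁻¹ * (D.sC x.1 * (D.qC x.1 * (D.qC x.1)⁻¹)) := by
          rw [A.mul_inv (A.qC_isG x.1), Matrix.mul_one]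
      _ = (D.qC x.1)⁻¹ * ((D.sC x.1 * D.qC x.1) * (D.qC x.1)⁻¹) := by rw [Matrix.mul_assoc]
      _ = (D.qC x.1)⁻¹ * (D.qC x.1 * D.Dx x.1 * (D.qC x.1)⁻¹) := by rw [h1]
      _ = ((D.qC x.1)⁻¹ * D.qC x.1) * D.Dx x.1 * (D.qC x.1)⁻¹ := by simp only [Matrix.mul_assoc]
      _ = D.Dx x.1 * (D.qC x.1)⁻¹ := by rw [A.inv_mul (A.qC_isG x.1), Matrix.one_mul]
  show D.qC x.1 * D.Tt t * (D.qC x.1)⁻¹ * D.sC x.1 = D.sC x.1 * (D.qC x.1 * D.Tt t * (D.qC x.1)⁻¹)
  calc D.qC x.1 * D.Tt t * (D.qC x.1)⁻¹ * D.sC x.1 = D.qC x.1 * D.Tt t * ((D.qC x.1)⁻¹ * D.sC x.1) := by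
        simp only [Matrix.mul_assoc]
    _ = D.qC x.1 * (D.Tt t * D.Dx x.1) * (D.qC x.1)⁻¹ := by rw [h2]; simp only [Matrix.mul_assoc]
    _ = (D.qC x.1 * D.Dx x.1) * D.Tt t * (D.qC x.1)⁻¹ := by rw [D.Tt_Dx_comm]; simp only [Matrix.mul_assoc]
    _ = D.sC x.1 * (D.qC x.1 * D.Tt t * (D.qC x.1)⁻¹) := by rw [h1]; simp only [Matrix.mul_assoc]

theorem prod_ofFn_conj (A : Ax D) (q : Matrix (Fin N) (Fin N) ℂ) (hq : D.IsG q) {b : ℕ}
    (t : Fin b → Fin n → ℂˣ) :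
    (List.ofFn fun a => q * D.Tt (t a) * q⁻¹).prod = q * D.Tt (∏ a, t a) * q⁻¹ := by
  induction b with
  | zero => simp [D.Tt_one, A.mul_inv hq]
  | succ b ih =>
    rw [List.ofFn_succ, List.prod_cons, ih, Fin.prod_univ_succ, D.Tt_mul]
    calc q * D.Tt (t 0) * q⁻¹ * (q * D.Tt (∏ a : Fin b, t a.succ) * q⁻¹) =
        q * D.Tt (t 0) * (q⁻¹ * q) * D.Tt (∏ a : Fin b, t a.succ) * q⁻¹ := by
          simp only [Matrix.mul_assoc]
      _ = _ := by rw [A.inv_mul hq, Matrix.mul_one]; simp only [Matrix.mul_assoc]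

/-- only the product of the torus elements matters -/
theorem eval_torus (A : Ax D) {P : MvPolynomial (Idx N b) ℂ} (hP : InvP D b P)
    (g : Fin b → Matrix (Fin N) (Fin N) ℂ) (hg : ∀ a, D.IsG (g a)) (x : D.RegX)
    (t t' : Fin b → Fin n → ℂˣ) (h : ∏ a, t a = ∏ a, t' a) :
    MvPolynomial.eval (co (fun a => g a * D.Tt (t a) * (D.qC x.1)⁻¹) (D.sC x.1)) P =
      MvPolynomial.eval (co (fun a => g a * D.Tt (t' a) * (D.qC x.1)⁻¹) (D.sC x.1)) P := by
  refine hP _ _ (fun a => D.qC x.1 * D.Tt ((t' a)⁻¹ * t a) * (D.qC x.1)⁻¹) (D.sC x.1)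
    (fun a => A.mul _ _ (A.mul _ _ (hg a) (A.torus _)) (A.inv _ (A.qC_isG x.1))) (A.sC_mem x.1)
    (fun a => qTq_commute A x _) ?_ (fun a => ?_)
  · rw [prod_ofFn_conj A _ (A.qC_isG x.1) (fun a => (t' a)⁻¹ * t a), Finset.prod_mul_distrib, h,
      Finset.prod_inv_distrib, inv_mul_cancel, D.Tt_one, Matrix.mul_one, A.mul_inv (A.qC_isG x.1)]
  · rw [D.Tt_mul]
    calc g a * D.Tt (t a) * (D.qC x.1)⁻¹ = g a * (D.Tt (t' a) * D.Tt (t' a)⁻¹) * D.Tt (t a) * (D.qC x.1)⁻¹ := by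
          rw [← D.Tt_mul, mul_inv_cancel, D.Tt_one, Matrix.mul_one]
      _ = g a * D.Tt (t' a) * 1 * (D.Tt (t' a)⁻¹ * D.Tt (t a)) * (D.qC x.1)⁻¹ := by
          simp only [Matrix.mul_assoc, Matrix.one_mul]
      _ = g a * D.Tt (t' a) * ((D.qC x.1)⁻¹ * D.qC x.1) * (D.Tt (t' a)⁻¹ * D.Tt (t a)) * (D.qC x.1)⁻¹ := by
          rw [A.inv_mul (A.qC_isG x.1)]
      _ = _ := by simp only [Matrix.mul_assoc]

/-- `Phi` at a point translated by torus elements -/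
theorem Phi_torus (A : Ax D) {P : MvPolynomial (Idx N (b + 1)) ℂ} (hP : InvP D (b + 1) P)
    (g g' : Fin (b + 1) → D.Gs) (x : D.RegX) (t : Fin (b + 1) → Fin n → ℂˣ)
    (hg : ∀ a, (g' a).1 = (g a).1 * D.Tt (t a)) (t' : Fin n → ℂˣ) :
    Phi D P (g', x) t' = Phi D P (g, x) (t' * ∏ a, t a) := by
  unfold Phi
  have e1 : (fun a => (g' a).1 * (if a = 0 then (D.Tt t' : Matrix (Fin N) (Fin N) ℂ) else 1) *
      (D.qC x.1)⁻¹) =
      fun a => (g a).1 * D.Tt (t a * (if a = 0 then t' else 1)) * (D.qC x.1)⁻¹ := by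
    funext a
    rw [hg a, D.Tt_mul]
    by_cases ha : a = 0
    · simp only [ha, if_true, Matrix.mul_assoc]
    · simp only [ha, if_false, D.Tt_one, Matrix.mul_one]
  have e2 : (fun a => (g a).1 *
      (if a = 0 then (D.Tt (t' * ∏ a, t a) : Matrix (Fin N) (Fin N) ℂ) else 1) * (D.qC x.1)⁻¹) =
      fun a => (g a).1 * D.Tt (if a = 0 then (t' * ∏ a, t a) else 1) * (D.qC x.1)⁻¹ := by
    funext a
    by_cases ha : a = 0
    · simp only [ha, if_true]
    · simp only [ha, if_false, D.Tt_one]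
  simp only [e1, e2]
  refine eval_torus A hP _ (fun a => (g a).2) x _ _ ?_
  rw [Finset.prod_mul_distrib, Finset.prod_ite_eq' Finset.univ (0 : Fin (b + 1)) (fun _ => t'),
    Finset.prod_ite_eq' Finset.univ (0 : Fin (b + 1)) (fun _ => t' * ∏ a, t a)]
  simp [mul_comm]

/-- semi-invariance of the coefficient functions -/
theorem cf_torus (A : Ax D) {P : MvPolynomial (Idx N (b + 1)) ℂ} (hP : InvP D (b + 1) P)
    (μ : Fin n → ℤ) (g g' : Fin (b + 1) → D.Gs) (x : D.RegX)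
    (t : Fin (b + 1) → Fin n → ℂˣ) (hg : ∀ a, (g' a).1 = (g a).1 * D.Tt (t a)) :
    cf D P μ (g', x) = ((∏ a, chi μ (t a) : ℂˣ) : ℂ) * cf D P μ (g, x) := by
  by_cases hμ : μ ∈ supp D P
  · refine cf_unique (subset_refl _) (g', x)
      (fun μ => ((∏ a, chi μ (t a) : ℂˣ) : ℂ) * cf D P μ (g, x)) (fun t' => ?_) μ hμ
    rw [Phi_torus A hP g g' x t hg, Phi_eq_sum (subset_refl _)]
    refine Finset.sum_congr rfl fun μ _ => ?_
    rw [chi_mul]
    have : chi μ (∏ a, t a) = ∏ a, chi μ (t a) := by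
      classical
      induction (Finset.univ : Finset (Fin (b + 1))) using Finset.induction_on with
      | empty => simp [chi_one]
      | insert a s ha ih => rw [Finset.prod_insert ha, Finset.prod_insert ha, chi_mul, ih]
    rw [this]
    push_cast
    ring
  · rw [cf_eq_zero hμ]
    simp

end expansion

end Pool.Agent.MTXD
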