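import Pool.Agent.MTD.Weyl
import Pool.Agent.MTX.D.Exp2

/-! # MTX/D : the support of an expansion is invariant under the reflections

Port of `Pool/Agent/MP_c45d35_ag/Weyl.lean`. -/

namespace Pool.Agent.MTXD

open Pool.Agent.MTD

open Matrix
open Pool.Agent.MP_c45d35_ag (chi UpUni LowUni chi_add chi_mul chi_zero chi_one chi_inv chi_map)

section weyl
variable {n N : ℕ} {ι : Type} [Fintype ι] {D : Dat n N ι} {b : ℕ}

/-- **The support is invariant under the reflections.** -/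
theorem sw_mem_supp (A : Ax D) (β : ι) {P : MvPolynomial (Idx N (b + 1)) ℂ} {μ : Fin n → ℤ}
    (hμ : μ ∈ supp D P) : D.sw β μ ∈ supp D P := by
  classical
  obtain ⟨⟨g, x⟩, hy⟩ := mem_supp.1 hμ
  obtain ⟨w, hw, hwd, hwT⟩ := A.weyl β
  set x' : D.RegX := ⟨D.sr β x.1, A.sr_reg x.2 β⟩ with hx'
  have hs : D.sC x'.1 = D.sC x.1 := A.sC_sr β x.1
  have hwD : w * D.Dx x.1 = D.Dx x'.1 * w := hwd x.1
  -- q(x)⁻¹ q(x') w is in the torus
  have hc : Commute ((D.qC x.1)⁻¹ * (D.qC x'.1 * w)) (D.Dx x.1) := by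
    have h1 := A.qC_conj x.2
    have h2 := A.qC_conj x'.2
    rw [hs] at h2
    show (D.qC x.1)⁻¹ * (D.qC x'.1 * w) * D.Dx x.1 = D.Dx x.1 * ((D.qC x.1)⁻¹ * (D.qC x'.1 * w))
    calc (D.qC x.1)⁻¹ * (D.qC x'.1 * w) * D.Dx x.1 = (D.qC x.1)⁻¹ * (D.qC x'.1 * (w * D.Dx x.1)) := by
          simp only [Matrix.mul_assoc]
      _ = (D.qC x.1)⁻¹ * ((D.qC x'.1 * D.Dx x'.1) * w) := by rw [hwD]; simp only [Matrix.mul_assoc]
      _ = (D.qC x.1)⁻¹ * (D.sC x.1 * 1 * D.qC x'.1 * w) := by rw [h2, Matrix.mul_one]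
      _ = (D.qC x.1)⁻¹ * ((D.sC x.1 * D.qC x.1) * (D.qC x.1)⁻¹ * D.qC x'.1 * w) := by
          rw [← A.mul_inv (A.qC_isG x.1)]; simp only [Matrix.mul_assoc]
      _ = ((D.qC x.1)⁻¹ * D.qC x.1) * D.Dx x.1 * ((D.qC x.1)⁻¹ * (D.qC x'.1 * w)) := by
          rw [← h1]; simp only [Matrix.mul_assoc]
      _ = D.Dx x.1 * ((D.qC x.1)⁻¹ * (D.qC x'.1 * w)) := by
          rw [A.inv_mul (A.qC_isG x.1), Matrix.one_mul]
  have hG : D.IsG ((D.qC x.1)⁻¹ * (D.qC x'.1 * w)) :=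
    A.mul _ _ (A.inv _ (A.qC_isG x.1)) (A.mul _ _ (A.qC_isG x'.1) hw)
  obtain ⟨τ, hd⟩ := A.cent _ x.1 hG x.2 hc
  have hq : D.qC x'.1 * w = D.qC x.1 * D.Tt τ := by
    rw [← hd, ← Matrix.mul_assoc, A.mul_inv (A.qC_isG x.1), Matrix.one_mul]
  -- inverse
  have hqi : (D.qC x'.1)⁻¹ = w * D.Tt τ⁻¹ * (D.qC x.1)⁻¹ := by
    refine Matrix.inv_eq_right_inv ?_
    calc D.qC x'.1 * (w * D.Tt τ⁻¹ * (D.qC x.1)⁻¹) = (D.qC x'.1 * w) * D.Tt τ⁻¹ * (D.qC x.1)⁻¹ := by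
          simp only [Matrix.mul_assoc]
      _ = D.qC x.1 * (D.Tt τ * D.Tt τ⁻¹) * (D.qC x.1)⁻¹ := by rw [hq]; simp only [Matrix.mul_assoc]
      _ = 1 := by rw [← D.Tt_mul, mul_inv_cancel, D.Tt_one, Matrix.mul_one, A.mul_inv (A.qC_isG x.1)]
  set g' : Fin (b + 1) → D.Gs := fun a =>
    ⟨(g a).1 * D.Tt τ * w⁻¹, A.mul _ _ (A.mul _ _ (g a).2 (A.torus τ)) (A.inv _ hw)⟩ with hg'
  have hPhi : ∀ t, Phi D P (g', x') t = Phi D P (g, x) (srT D β t) := by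
    intro t
    have hfun : (fun a : Fin (b + 1) => ((g' a).1 * (if a = 0 then D.Tt t else 1) * (D.qC x'.1)⁻¹ :
        Matrix (Fin N) (Fin N) ℂ)) =
        fun a => (g a).1 * (if a = 0 then D.Tt (srT D β t) else 1) * (D.qC x.1)⁻¹ := ?_
    · unfold Phi
      rw [hs]
      simp only []
      rw [hfun]
    funext a
    show (g a).1 * D.Tt τ * w⁻¹ * (if a = 0 then D.Tt t else 1) * (D.qC x'.1)⁻¹ =
      (g a).1 * (if a = 0 then D.Tt (srT D β t) else 1) * (D.qC x.1)⁻¹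
    rw [hqi]
    by_cases ha : a = 0
    · rw [if_pos ha, if_pos ha]
      calc (g a).1 * D.Tt τ * w⁻¹ * D.Tt t * (w * D.Tt τ⁻¹ * (D.qC x.1)⁻¹) =
          (g a).1 * D.Tt τ * w⁻¹ * (D.Tt t * w) * D.Tt τ⁻¹ * (D.qC x.1)⁻¹ := by
            simp only [Matrix.mul_assoc]
        _ = (g a).1 * D.Tt τ * (w⁻¹ * w) * D.Tt (srT D β t) * D.Tt τ⁻¹ * (D.qC x.1)⁻¹ := by
            rw [hwT]; simp only [Matrix.mul_assoc]
        _ = (g a).1 * (D.Tt τ * (D.Tt (srT D β t) * D.Tt τ⁻¹)) * (D.qC x.1)⁻¹ := by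
            rw [A.inv_mul hw, Matrix.mul_one]; simp only [Matrix.mul_assoc]
        _ = _ := by
            rw [D.Tt_comm (srT D β t), ← Matrix.mul_assoc (D.Tt τ), ← D.Tt_mul τ, mul_inv_cancel,
              D.Tt_one, Matrix.one_mul]
    · rw [if_neg ha, if_neg ha]
      calc (g a).1 * D.Tt τ * w⁻¹ * 1 * (w * D.Tt τ⁻¹ * (D.qC x.1)⁻¹) =
          (g a).1 * D.Tt τ * (w⁻¹ * w) * D.Tt τ⁻¹ * (D.qC x.1)⁻¹ := by
            rw [Matrix.mul_one]; simp only [Matrix.mul_assoc]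
        _ = (g a).1 * (D.Tt τ * D.Tt τ⁻¹) * (D.qC x.1)⁻¹ := by
            rw [A.inv_mul hw, Matrix.mul_one]; simp only [Matrix.mul_assoc]
        _ = _ := by rw [← D.Tt_mul, mul_inv_cancel, D.Tt_one]
  -- compare coefficients
  have hinj : Function.Injective (D.sw β) := by
    intro μ ν h
    have := congrArg (D.sw β) h
    rwa [A.sw_sw, A.sw_sw] at this
  have hcf := cf_unique (P := P) (s := supp D P ∪ (supp D P).image (D.sw β))
    Finset.subset_union_left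
    (g', x') (fun ν => if ν ∈ (supp D P).image (D.sw β) then cf D P (D.sw β ν) (g, x) else 0)
    (fun t => by
      rw [hPhi, Phi_eq_sum (subset_refl _)]
      simp only [ite_mul, zero_mul]
      rw [← Finset.sum_filter]
      have : (supp D P ∪ (supp D P).image (D.sw β)).filter
          (fun ν => ν ∈ (supp D P).image (D.sw β)) = (supp D P).image (D.sw β) := by
        ext ν
        simp only [Finset.mem_filter, Finset.mem_union]
        tauto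
      rw [this, Finset.sum_image (fun μ _ ν _ h => hinj h)]
      refine Finset.sum_congr rfl fun μ _ => ?_
      rw [A.sw_sw, chi_srT]) (D.sw β μ)
    (Finset.mem_union_right _ (Finset.mem_image_of_mem _ hμ))
  simp only [Finset.mem_image_of_mem _ hμ, if_true, A.sw_sw] at hcf
  rw [mem_supp]
  exact ⟨(g', x'), by rw [hcf]; exact hy⟩

end weyl

end Pool.Agent.MTXD
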