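import Pool.Agent.MTD.Walls
import Pool.Agent.MTX.D.Weyl

/-! # MTX/D : leading weights, walls, clearing denominators

Port of `Pool/Agent/MP_c45d35_ag/Walls.lean` and `PoleA.lean`. -/

namespace Pool.Agent.MTXD

open Pool.Agent.MTD

open Matrix Filter Topology
open Pool.Agent.MP_c45d35_ag (chi UpUni LowUni chi_add chi_mul chi_zero chi_one chi_inv chi_map)

section lead
variable {n N : ℕ} {ι : Type} [Fintype ι] {D : Dat n N ι} {b : ℕ}

theorem ev_cr_sub_smul (A : Ax D) (β : ι) (μ : Fin n → ℤ) (k : ℤ) :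
    ev (D.cr β) (μ - k • D.rt β) = ev (D.cr β) μ - k * 2 := by
  rw [ev_sub]
  have : ev (D.cr β) (k • D.rt β) = k * ev (D.cr β) (D.rt β) := ev_smul _ _ _
  rw [this, A.cr_rt]

/-- adding a positive multiple of a root increases the lexicographic order -/
theorem lex_lt_add (A : Ax D) (β : ι) (μ : Fin n → ℤ) (k : ℤ) (hk : 0 < k) :
    toLex μ < toLex (μ + k • D.rt β) := by
  have h1 := A.lexpos β
  obtain ⟨j, rfl⟩ : ∃ j : ℕ, k = j := ⟨k.toNat, by rw [Int.toNat_of_nonneg hk.le]⟩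
  have hj : j ≠ 0 := by
    rintro rfl
    exact lt_irrefl _ hk
  have h2 : 0 < toLex ((j : ℤ) • D.rt β) := by
    rw [natCast_zsmul]
    have : toLex (j • D.rt β) = j • toLex (D.rt β) := rfl
    rw [this]
    exact nsmul_pos h1 hj
  have h3 : toLex μ + 0 < toLex μ + toLex ((j : ℤ) • D.rt β) := add_lt_add_right h2 _
  rw [add_zero, ← toLex_add] at h3
  exact h3

/-- if `μ` bounds the support lexicographically, then the string `μ - k α` in the support has
`k ≤ ⟨μ, α^∨⟩` -/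
theorem string_bound (A : Ax D) {P : MvPolynomial (Idx N (b + 1)) ℂ} {μ : Fin n → ℤ}
    (hμ : IsLead D P μ) (β : ι) (k : ℤ) (hk : μ - k • D.rt β ∈ supp D P) :
    0 ≤ k ∧ k ≤ ev (D.cr β) μ := by
  constructor
  · by_contra h
    push Not at h
    have h1 := lex_lt_add A β μ (-k) (by linarith)
    have h2 := hμ _ hk
    rw [neg_smul, ← sub_eq_add_neg] at h1
    exact absurd h2 (not_le.2 h1)
  · by_contra h
    push Not at h
    have h1 := sw_mem_supp A β hk
    unfold Dat.sw at h1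
    rw [ev_cr_sub_smul A] at h1
    have h2 : μ - k • D.rt β - (ev (D.cr β) μ - k * 2) • D.rt β =
        μ + (k - ev (D.cr β) μ) • D.rt β := by
      module
    rw [h2] at h1
    exact absurd (hμ _ h1) (not_le.2 (lex_lt_add A β μ _ (by linarith)))

theorem dom_of_lead (A : Ax D) {P : MvPolynomial (Idx N (b + 1)) ℂ} {μ : Fin n → ℤ}
    (hμ : IsLead D P μ) (hm : μ ∈ supp D P) : D.Dom μ := fun β =>
  (string_bound A hμ β 0 (by simpa using hm)).2

end lead

section walls
variable {n N : ℕ} {ι : Type} {D : Dat n N ι}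

/-! ## Generic points of a wall -/

variable [Fintype ι]

theorem exists_genM (A : Ax D) (β : ι) (M : Finset (Fin n → ℤ)) : ∃ x, GenM D β M x := by
  classical
  let κ := {γ : ι // γ ≠ β} ⊕ {ν : M // ¬ ∃ a b : ℤ, a ≠ 0 ∧ a • (ν : Fin n → ℤ) = b • D.rt β}
  let w : κ → Fin n → ℤ := Sum.elim (fun γ => D.rt γ.1) (fun ν => ν.1)
  have hw : ∀ i : κ, ¬ ∃ a b : ℤ, a ≠ 0 ∧ a • w i = b • D.rt β := by
    rintro (γ | ν)
    · rintro ⟨a, b, ha, h⟩
      exact ha (A.rt_indep γ.1 β a b γ.2 h).1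
    · exact ν.2
  obtain ⟨x, hx⟩ := exists_generic (E := LinearMap.ker (evLin (D.rt β))) (κ := κ)
    (fun i => (evLin (w i)).comp (LinearMap.ker (evLin (D.rt β))).subtype) (by
      intro i h0
      apply hw i
      refine prop_of_vanish A.cr_rt β (w i) fun x hx => ?_
      exact LinearMap.congr_fun h0 ⟨x, hx⟩)
  refine ⟨x.1, ⟨x.2, fun γ hγ => ?_⟩, fun ν hν h => ?_⟩
  · exact hx (Sum.inl ⟨γ, hγ⟩)
  · exact hx (Sum.inr ⟨⟨ν, hν⟩, h⟩)

/-- a regular vector exists -/
theorem exists_reg (A : Ax D) : ∃ x : Fin n → ℂ, D.Reg x :=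
  exists_generic (κ := ι) (fun β => evLin (D.rt β)) fun β => evLin_ne_zero (A.ne_zero_rt β)

/-! ## The Euler class `Eu` -/

end walls

end Pool.Agent.MTXD
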