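import Pool.Agent.MTD.GoodA
import Pool.Agent.MTX.D.Walls
import Pool.Agent.MP_c45d35_ag.Red

/-! # MTX/D : comparison of `x + Y(Z)` with `x + e` near a generic point of a wall

Compare `Pool/Agent/MP_c45d35_ag/Red.lean`, `GoodAt` and `goodAt`. -/

namespace Pool.Agent.MTXD

open Pool.Agent.MTD

open Matrix Filter Topology
open Pool.Agent.MP_c45d35_ag (chi UpUni LowUni)

section good
variable {n N : ℕ} {ι : Type} [Fintype ι] {D : Dat n N ι}

/-- If `x0` is a generic point of the wall of `β` and `x0 + Y(Z)` is not conjugate to `x0`, then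
`x + Y(Z)` and `x + e` can be compared near `x0`.

Proof (port of `MP_c45d35_ag.goodAt` in `Pool/Agent/MP_c45d35_ag/Red.lean`, with `p, q` replaced by
`β`).  `Ω = {x | ∀ γ ≠ β, ev (rt γ) x ≠ 0}` is open and contains `x0`; `R = C(Ω, ℂ)`, with the
coordinate functions `X : Fin n → R`; `ev (rt γ) X` is a unit for `γ ≠ β`
(`ContinuousMap.isUnit_iff_forall_ne_zero`).  `A.exists_red X {β}` for the constant `Z` and for the
constant `ze` gives `u, Z'` and `ue, Ze'` over `R` with `Z' γ = 0 = Ze' γ` for `γ ≠ β`, so that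
`Y Z' = Z' β • E_β`.  At `x0` the value of `Z' β` is not `0` (otherwise `u(x0)` conjugates `x0` to
`x0 + Y Z`, against `hZ`), and the value of `Ze' β` is not `0` (`A.nonss`).  Choose `k0` with
`rt β k0 ≠ 0` (`A.ne_zero_rt`).  Near `x0` there is a continuous `ρ` with `ρ ^ (rt β k0) = Z' β / Ze' β`
(`MP_c45d35_ag.local_root`), `δ x k = if k = k0 then ρ x else 1`, so `chi (rt β) (δ x) = Z' β / Ze' β`
(`MP_c45d35_ag.chi_single`), and by `A.Tt_Y`: `Tt (δ x) * Y(Ze') = Y(Z') * Tt (δ x)`.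
`C x = u(x) * Tt (δ x) * (ue(x))⁻¹` (the inverse of an element of the group is its adjugate,
`A.inv_eq`, so it is continuous).  If `x` is regular, `v_e = ue(x)⁻¹ * ue`, `v = Tt (δ x) v_e Tt (δ x)⁻¹`,
then `(u(x) v) * Dx x = (Dx x + Y Z) (u(x) v)` and `u(x) v` is upper unipotent in the group, so
`u = u(x) v` by `A.u_unique`, which is the claim.  (Here `u(x)`, `Z'(x)` denote the values at `x ∈ Ω`.) -/
theorem goodAt (A : Ax D) {β : ι} {x0 : Fin n → ℂ} (hx0 : D.GenW β x0) (Z : ι → ℂ)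
    (hZ : ¬ ∃ g : Matrix (Fin N) (Fin N) ℂ, IsUnit g.det ∧
      g * D.Dx x0 = (D.Dx x0 + D.Y Z) * g) : GoodAt D Z x0 := by
  classical
  -- the open set
  set Ω : Set (Fin n → ℂ) := {x | ∀ γ, γ ≠ β → ev (D.rt γ) x ≠ 0} with hΩ
  have hevc : ∀ γ, Continuous (fun x : Fin n → ℂ => ev (D.rt γ) x) := by
    intro γ
    unfold ev
    fun_prop
  have hΩo : IsOpen Ω := by
    have : Ω = ⋂ γ : ι, {x | γ ≠ β → ev (D.rt γ) x ≠ 0} := by
      ext x; simp [hΩ]
    rw [this]
    refine isOpen_iInter_of_finite fun γ => ?_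
    by_cases h : γ = β
    · simp [h]
    · simp only [ne_eq, h, not_false_eq_true, forall_const]
      exact isOpen_ne_fun (hevc γ) continuous_const
  have hx0Ω : x0 ∈ Ω := hx0.2
  -- the ring
  let R := C(Ω, ℂ)
  let X : Fin n → R := fun k => ⟨fun x => x.1 k, (continuous_apply k).comp continuous_subtype_val⟩
  let φ : (x : Ω) → (R →ₐ[ℂ] ℂ) := fun x => ContinuousMap.evalAlgHom ℂ ℂ x
  have hφX : ∀ x : Ω, (fun k => φ x (X k)) = x.1 := fun x => rfl
  have hDx : ∀ x : Ω, (D.Dx X).map (φ x) = D.Dx x.1 := by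
    intro x
    exact D.Dx_map (φ x).toRingHom X
  have hI : ∀ γ, γ ∉ ({β} : Set ι) → IsUnit (ev (D.rt γ) X) := by
    intro γ hγ
    rw [ContinuousMap.isUnit_iff_forall_ne_zero]
    intro x
    have h1 : (ev (D.rt γ) X) x = ev (D.rt γ) x.1 := by
      show (φ x).toRingHom (ev (D.rt γ) X) = _
      rw [ev_map]
      rfl
    rw [h1]
    exact x.2 γ hγ
  -- the reductions
  have red : ∀ W : ι → ℂ, ∃ (u : Matrix (Fin N) (Fin N) R) (z : R), UpUni u ∧ D.IsG u ∧
      ∀ x : Ω, u.map (φ x) * (D.Dx x.1 + z x • D.E β) = (D.Dx x.1 + D.Y W) * u.map (φ x) := by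
    intro W
    obtain ⟨u, Z', hu, hG, hZ', hE⟩ := A.exists_red X {β} hI (fun γ => algebraMap ℂ R (W γ))
    refine ⟨u, Z' β, hu, hG, fun x => ?_⟩
    have h3 := congrArg (fun M : Matrix (Fin N) (Fin N) R => M.map (φ x)) hE
    simp only [Matrix.map_mul, Matrix.map_add (φ x) (map_add (φ x)), hDx, D.Y_map] at h3
    have h4 : (fun γ => φ x (algebraMap ℂ R (W γ))) = W := by
      funext γ
      rw [AlgHom.commutes]
      rfl
    have h5 : D.Y (fun γ => φ x (Z' γ)) = Z' β x • D.E β := by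
      ext i j
      rw [D.Y_apply, Finset.sum_eq_single β]
      · rfl
      · intro γ _ hγ
        rw [hZ' γ hγ, map_zero, zero_mul]
      · intro h
        exact absurd (Finset.mem_univ β) h
    rw [h4, h5] at h3
    exact h3
  obtain ⟨m, c, hm, hmG, hE⟩ := red Z
  obtain ⟨me, ce, hme, hmeG, hEe⟩ := red D.ze
  set x0' : Ω := ⟨x0, hx0Ω⟩ with hx0'
  -- evaluation of unipotent matrices
  have hmapU : ∀ (m : Matrix (Fin N) (Fin N) R) (x : Ω), UpUni m → UpUni (m.map (φ x)) := by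
    intro m x hm
    constructor
    · intro i j hij
      rw [Matrix.map_apply, hm.1 i j hij, map_zero]
    · intro i
      rw [Matrix.map_apply, hm.2 i, map_one]
  -- nonvanishing of the coefficients at `x0`
  have hce : ce x0' ≠ 0 := by
    intro h0
    have h2 := hEe x0'
    rw [h0, zero_smul, add_zero] at h2
    exact A.nonss β x0 hx0 ⟨me.map (φ x0'), by
      rw [(hmapU me x0' hme).det]; exact isUnit_one, h2⟩
  have hc : c x0' ≠ 0 := by
    intro h0
    have h2 := hE x0'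
    rw [h0, zero_smul, add_zero] at h2
    exact hZ ⟨m.map (φ x0'), by
      rw [(hmapU m x0' hm).det]; exact isUnit_one, h2⟩
  -- the torus part
  obtain ⟨k0, hk0⟩ := Function.ne_iff.1 (A.ne_zero_rt β)
  have hk0' : D.rt β k0 ≠ 0 := hk0
  let r : (Fin n → ℂ) → ℂ := fun x => if h : x ∈ Ω then c ⟨x, h⟩ / ce ⟨x, h⟩ else 1
  have hr0 : r x0 ≠ 0 := by
    simp only [r, dif_pos hx0Ω]
    exact div_ne_zero hc hce
  have hrc : ContinuousAt r x0 := by
    have h1 : ContinuousAt (fun x : Ω => c x / ce x) x0' :=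
      c.continuous.continuousAt.div ce.continuous.continuousAt hce
    have h2 : ContinuousAt (fun x : Ω => r x.1) x0' := by
      refine h1.congr (Eventually.of_forall fun x => ?_)
      simp only [r, dif_pos x.2]
    exact (hΩo.isOpenEmbedding_subtypeVal.continuousAt_iff (x := x0')).mp h2
  obtain ⟨ρ, hρc, hρe⟩ := Pool.Agent.MP_c45d35_ag.local_root x0 r hrc hr0 (D.rt β k0) hk0'
  let δ : (Fin n → ℂ) → Fin n → ℂˣ := fun x k => if k = k0 then ρ x else 1
  have hδc : ∀ k, ContinuousAt (fun x => ((δ x k : ℂˣ) : ℂ)) x0 := by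
    intro k
    by_cases hk : k = k0
    · simp only [δ, if_pos hk]; exact hρc
    · simp only [δ, if_neg hk]; exact continuousAt_const
  have hchi : ∀ (μ : Fin n → ℤ) x, ((chi μ (δ x) : ℂˣ) : ℂ) = ((ρ x : ℂˣ) : ℂ) ^ (μ k0) := by
    intro μ x
    rw [show δ x = (fun k => if k = k0 then ρ x else 1) from rfl,
      Pool.Agent.MP_c45d35_ag.chi_single]
    simp
  have hTt : ∀ x, (D.Tt (δ x) : Matrix (Fin N) (Fin N) ℂ) =
      Matrix.diagonal fun i => ((ρ x : ℂˣ) : ℂ) ^ (D.wt i k0) := by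
    intro x
    unfold Dat.Tt
    congr 1
    funext i
    exact hchi _ _
  let C : (Fin n → ℂ) → Matrix (Fin N) (Fin N) ℂ := fun x =>
    if h : x ∈ Ω then m.map (φ ⟨x, h⟩) * D.Tt (δ x) * (me.map (φ ⟨x, h⟩)).adjugate else 0
  refine ⟨δ, C, ?_, hδc, ?_⟩
  · -- continuity
    have hTc : ContinuousAt (fun x => (D.Tt (δ x) : Matrix (Fin N) (Fin N) ℂ)) x0 := by
      refine (continuousAt_pi.mpr fun i => continuousAt_pi.mpr fun j => ?_)
      simp only [hTt]
      by_cases hij : i = j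
      · subst hij
        simp only [Matrix.diagonal_apply_eq]
        exact hρc.zpow₀ _ (Or.inl (Units.ne_zero _))
      · simp only [Matrix.diagonal_apply_ne _ hij]
        exact continuousAt_const
    have hmapc : ∀ m : Matrix (Fin N) (Fin N) R, ContinuousAt (fun x : Ω => m.map (φ x)) x0' := by
      intro m
      refine continuousAt_pi.mpr fun i => continuousAt_pi.mpr fun j => ?_
      exact (m i j).continuous.continuousAt
    have hadj : Continuous (fun m : Matrix (Fin N) (Fin N) ℂ => m.adjugate) :=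
      Continuous.matrix_adjugate continuous_id
    have h1 : ContinuousAt (fun x : Ω => m.map (φ x) * D.Tt (δ x.1) * (me.map (φ x)).adjugate)
        x0' := by
      have hT' : ContinuousAt (fun x : Ω => (D.Tt (δ x.1) : Matrix (Fin N) (Fin N) ℂ)) x0' :=
        hTc.comp_of_eq continuous_subtype_val.continuousAt rfl
      have hs' : ContinuousAt (fun x : Ω => (me.map (φ x)).adjugate) x0' :=
        hadj.continuousAt.comp (hmapc me)
      exact ((hmapc m).mul hT').mul hs'
    have h2 : ContinuousAt (fun x : Ω => C x.1) x0' := by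
      refine h1.congr (Eventually.of_forall fun x => ?_)
      simp only [C, dif_pos x.2]
    exact (hΩo.isOpenEmbedding_subtypeVal.continuousAt_iff (x := x0')).mp h2
  · -- the identity
    have hev : ∀ᶠ x in 𝓝 x0, x ∈ Ω := hΩo.mem_nhds hx0Ω
    have hce' : ∀ᶠ x in 𝓝 x0, ∀ h : x ∈ Ω, ce ⟨x, h⟩ ≠ 0 := by
      have h1 : ∀ᶠ x : Ω in 𝓝 x0', ce x ≠ 0 :=
        ce.continuous.continuousAt.eventually_ne hce
      have h2 := hΩo.isOpenEmbedding_subtypeVal.map_nhds_eq x0'
      have h3 : ∀ᶠ x in Filter.map (Subtype.val : Ω → _) (𝓝 x0'), ∀ h : x ∈ Ω,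
          ce ⟨x, h⟩ ≠ 0 := by
        rw [Filter.eventually_map]
        filter_upwards [h1] with x hx h
        exact hx
      rwa [h2] at h3
    filter_upwards [hev, hce', hρe] with x hxΩ hcx hρx hxreg u ue hu huG hue hueG hue1 hue2
    set x' : Ω := ⟨x, hxΩ⟩ with hx'
    have hcx' : ce x' ≠ 0 := hcx hxΩ
    have hρ0 : ((ρ x : ℂˣ) : ℂ) ≠ 0 := Units.ne_zero _
    have hr : r x = c x' / ce x' := dif_pos hxΩ
    have hTZ : D.Tt (δ x) * (ce x' • D.E β) = (c x' • D.E β) * D.Tt (δ x) := by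
      have h1 := A.Tt_E (δ x) β
      have h2 : (D.E β).map (algebraMap ℂ ℂ) = D.E β := by
        ext i j
        rfl
      rw [h2, hchi, hρx, hr] at h1
      rw [Matrix.mul_smul, h1, smul_smul, mul_div_cancel₀ _ hcx', Matrix.smul_mul]
    -- abbreviations
    set M := m.map (φ x') with hM
    set Me := me.map (φ x') with hMe
    set T : Matrix (Fin N) (Fin N) ℂ := D.Tt (δ x) with hT
    have hmU : UpUni M := hmapU m x' hm
    have hmeU : UpUni Me := hmapU me x' hme
    have hMG : D.IsG M := hmG.map (φ x')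
    have hMeG : D.IsG Me := hmeG.map (φ x')
    have hTG : D.IsG T := A.torus (δ x)
    have e1 : M * (D.Dx x + c x' • D.E β) = (D.Dx x + D.Y Z) * M := hE x'
    have e2 : Me * (D.Dx x + ce x' • D.E β) = (D.Dx x + D.e) * Me := hEe x'
    have hTD : T * D.Dx x = D.Dx x * T := D.Tt_Dx_comm _ _
    have hCx : C x = M * T * Me⁻¹ := by
      simp only [C, dif_pos hxΩ]
      rw [A.inv_eq hMeG]
    -- `v_e` and `v`
    set ve := Me⁻¹ * ue with hve
    have hveU : UpUni ve := hmeU.inv.mul hue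
    have hveG : D.IsG ve := A.mul _ _ (A.inv _ hMeG) hueG
    have e3 : ve * D.Dx x = (D.Dx x + ce x' • D.E β) * ve := by
      have h1 : Me⁻¹ * (D.Dx x + D.e) = (D.Dx x + ce x' • D.E β) * Me⁻¹ := by
        calc Me⁻¹ * (D.Dx x + D.e) = Me⁻¹ * ((D.Dx x + D.e) * Me) * Me⁻¹ := by
              rw [Matrix.mul_assoc, Matrix.mul_assoc, A.mul_inv hMeG, Matrix.mul_one]
          _ = (Me⁻¹ * Me) * (D.Dx x + ce x' • D.E β) * Me⁻¹ := by
              rw [← e2]; simp only [Matrix.mul_assoc]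
          _ = _ := by rw [A.inv_mul hMeG, Matrix.one_mul]
      rw [hve, Matrix.mul_assoc, hue2, ← Matrix.mul_assoc, h1, Matrix.mul_assoc]
    set v := T * ve * T⁻¹ with hv
    have hvG : D.IsG v := A.mul _ _ (A.mul _ _ hTG hveG) (A.inv _ hTG)
    have hvU : UpUni v := by
      have hTi : T⁻¹ = Matrix.diagonal (fun i => (((ρ x : ℂˣ) : ℂ) ^ (D.wt i k0))⁻¹) := by
        apply Matrix.inv_eq_right_inv
        rw [hT, hTt, Matrix.diagonal_mul_diagonal, ← Matrix.diagonal_one]
        congr 1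
        funext i
        exact mul_inv_cancel₀ (zpow_ne_zero _ hρ0)
      constructor
      · intro i j hij
        rw [hv, hTi, hT, hTt, Matrix.mul_diagonal, Matrix.diagonal_mul, hveU.1 i j hij]
        ring
      · intro i
        rw [hv, hTi, hT, hTt, Matrix.mul_diagonal, Matrix.diagonal_mul, hveU.2 i, mul_one]
        exact mul_inv_cancel₀ (zpow_ne_zero _ hρ0)
    have hTDi : T⁻¹ * D.Dx x = D.Dx x * T⁻¹ := by
      calc T⁻¹ * D.Dx x = T⁻¹ * (D.Dx x * T) * T⁻¹ := by
            rw [Matrix.mul_assoc, Matrix.mul_assoc, A.mul_inv hTG, Matrix.mul_one]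
        _ = (T⁻¹ * T) * D.Dx x * T⁻¹ := by rw [← hTD]; simp only [Matrix.mul_assoc]
        _ = _ := by rw [A.inv_mul hTG, Matrix.one_mul]
    have e4 : v * D.Dx x = (D.Dx x + c x' • D.E β) * v := by
      calc v * D.Dx x = T * (ve * D.Dx x) * T⁻¹ := by
            rw [hv, Matrix.mul_assoc, hTDi]; simp only [Matrix.mul_assoc]
        _ = (T * D.Dx x + T * (ce x' • D.E β)) * ve * T⁻¹ := by
            rw [e3, ← Matrix.mul_add]; simp only [Matrix.mul_assoc]
        _ = (D.Dx x + c x' • D.E β) * (T * ve * T⁻¹) := by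
            rw [hTD, hTZ, ← Matrix.add_mul]; simp only [Matrix.mul_assoc]
    have e5 : (M * v) * D.Dx x = (D.Dx x + D.Y Z) * (M * v) := by
      rw [Matrix.mul_assoc, e4, ← Matrix.mul_assoc, e1, Matrix.mul_assoc]
    have hureg : ∀ γ, IsUnit (ev (D.rt γ) x) := fun γ => isUnit_iff_ne_zero.2 (hxreg γ)
    have e6 : u = M * v := A.u_unique x hureg (D.Dx x + D.Y Z) u (M * v) hu (hmU.mul hvU) huG
      (A.mul _ _ hMG hvG) hue1 e5
    rw [hCx, e6, hv]
    calc M * T * Me⁻¹ * ue = M * T * (Me⁻¹ * ue) := by simp only [Matrix.mul_assoc]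
      _ = M * T * ve * (T⁻¹ * T) := by rw [A.inv_mul hTG, Matrix.mul_one]
      _ = M * (T * ve * T⁻¹) * T := by simp only [Matrix.mul_assoc]

end good

end Pool.Agent.MTXD
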