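import Pool.Agent.MTD.GoodB
import Pool.Agent.MTX.D.GoodA

/-! # MTX/D : `GoodAt` at almost all points of suitable lines in a wall -/

namespace Pool.Agent.MTXD

open Pool.Agent.MTD

open Matrix Filter Topology
open Pool.Agent.MP_c45d35_ag (chi UpUni LowUni)

section good
variable {n N : ℕ} {ι : Type} [Fintype ι] {D : Dat n N ι}

/-- `x + c E_β` is not conjugate to `x` if `β(x) = 0` and `c ≠ 0`.

Proof.  Let `m = ∏ (T - a)` over the (finite) set of values `a = ev (wt i) x`, `i : Fin N`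
(a squarefree polynomial over `ℂ`).  Then `m(Dx x) = 0`, so also `m(Dx x + c E_β) = 0` if the two
matrices are conjugate.  `Dx x` and `E_β` commute (`A.E_supp`: at a nonzero entry `(i, j)` of `E_β`,
`ev (wt i) x - ev (wt j) x = ev (rt β) x = 0`), so by Taylor expansion
`m(Dx x + c E_β) = m(Dx x) + c m'(Dx x) E_β + (terms divisible by E_β^2)`, and the powers `E_β^k`,
`k ≥ 2`, vanish at the positions `(i, j)` with `j = i + dep β` (`E_β` has depth `dep β ≥ 1`, see `Dp`
in `Red.lean`).  At a nonzero entry `(i, j)` of `E_β` this gives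
`c m'(ev (wt i) x) E_β i j = 0`, but `m'` does not vanish at the roots of `m`.
(Alternatively: the minimal polynomial of a matrix conjugate to a diagonal one is squarefree;
or use that `Dx x + c E_β - Dx x` is both nilpotent and semisimple, `Module.End.IsSemisimple.sub`...) -/
theorem not_diag (A : Ax D) {β : ι} {x : Fin n → ℂ} (hx : ev (D.rt β) x = 0) {c : ℂ} (hc : c ≠ 0) :
    ¬ ∃ g : Matrix (Fin N) (Fin N) ℂ, IsUnit g.det ∧
      g * D.Dx x = (D.Dx x + c • D.E β) * g := by
  rintro ⟨g, hg, h⟩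
  have hEd : Dp 1 (D.E β) := by
    intro i j hij
    by_contra hne
    have := A.E_supp_lt hne
    have : (i : ℕ) < j := this
    omega
  have hEg : D.E β * g = 0 := by
    ext i k
    -- `(Dx x - d_k) v = - c E v` for the `k`-th column `v`
    set a : Fin N → ℂ := fun i => ev (D.wt i) x - ev (D.wt k) x with ha
    set v : Fin N → ℂ := fun i => g i k with hv
    set P : Matrix (Fin N) (Fin N) ℂ := Matrix.diagonal a with hP
    set Q : Matrix (Fin N) (Fin N) ℂ := (-c) • D.E β with hQ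
    have hPv : P.mulVec v = Q.mulVec v := by
      funext l
      have h1 := congrFun (congrFun h l) k
      rw [Matrix.add_mul, Matrix.add_apply, Dat.Dx, Matrix.mul_diagonal, Matrix.diagonal_mul,
        Matrix.smul_mul, Matrix.smul_apply, Matrix.mul_apply] at h1
      rw [hP, Matrix.mulVec_diagonal, hQ, Matrix.smul_mulVec, Pi.smul_apply, Matrix.mulVec,
        dotProduct, smul_eq_mul]
      simp only [smul_eq_mul] at h1
      simp only [ha, hv]
      linear_combination -h1
    have hPQ : P * Q = Q * P := by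
      ext l m
      rw [hP, hQ, Matrix.diagonal_mul, Matrix.mul_diagonal, Matrix.smul_apply, smul_eq_mul]
      by_cases hne : D.E β l m = 0
      · rw [hne]; ring
      · have h2 := (A.E_supp β l m hne).2
        have h3 : ev (D.wt l) x = ev (D.wt m) x := by
          have h4 := hx
          rw [← h2, ev_sub_left] at h4
          exact sub_eq_zero.1 h4
        simp only [ha, h3]
        ring
    have hpow : ∀ m : ℕ, (P ^ m).mulVec v = (Q ^ m).mulVec v := by
      intro m
      induction m with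
      | zero => rfl
      | succ m ih =>
        rw [pow_succ', ← Matrix.mulVec_mulVec, ih, Matrix.mulVec_mulVec,
          ((show Commute P Q from hPQ).pow_right m).eq, ← Matrix.mulVec_mulVec, hPv,
          Matrix.mulVec_mulVec, ← pow_succ]
    have hQ0 : Q ^ N = 0 := by
      rw [hQ, smul_pow]
      ext l m
      rw [Matrix.smul_apply, hEd.pow N l m (by have := m.2; omega), smul_zero]
      rfl
    have hPN := hpow N
    rw [hQ0, Matrix.zero_mulVec] at hPN
    have hP0 : P.mulVec v = 0 := by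
      funext l
      have h1 := congrFun hPN l
      rw [hP, Matrix.diagonal_pow, Matrix.mulVec_diagonal, Pi.zero_apply, Pi.pow_apply] at h1
      rw [hP, Matrix.mulVec_diagonal, Pi.zero_apply]
      rcases mul_eq_zero.1 h1 with h2 | h2
      · rw [eq_zero_of_pow_eq_zero h2, zero_mul]
      · rw [h2, mul_zero]
    rw [hPv, hQ, Matrix.smul_mulVec] at hP0
    have h5 := congrFun hP0 i
    rw [Pi.smul_apply, smul_eq_mul, Pi.zero_apply] at h5
    rcases mul_eq_zero.1 h5 with h6 | h6
    · exact absurd (neg_eq_zero.1 h6) hc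
    · rw [Matrix.mul_apply, Matrix.zero_apply]
      exact h6
  apply A.E_ne β
  calc D.E β = D.E β * g * g⁻¹ := by rw [Matrix.mul_assoc, Matrix.mul_nonsing_inv g hg, Matrix.mul_one]
    _ = 0 := by rw [hEg, Matrix.zero_mul]

/-- On the line `x0 + s v` in the wall of `β`, with `Z_s = Z + s (ze - Z)`, the point is generic and
`GoodAt` holds for all `s` near `0`, `s ≠ 0`, provided `v` and `x0 + v` are generic.

Proof.  Let `f = ∏_{γ ≠ β} ev (rt γ) (x0 + s v) ∈ ℂ[s]`, a nonzero polynomial (`ev (rt γ) v ≠ 0`)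
with `f(1) ≠ 0`.  Over `R = Localization.Away f` (or `IsLocalization.Away`), the point
`x = x0 + s v` has `ev (rt γ) x` invertible for `γ ≠ β`; `A.exists_red x {β}` with coefficients
`Z_s` gives `u, Z'` over `R` with `Z' γ = 0` for `γ ≠ β`, i.e. `Y Z' = Z' β • E_β`.  Write
`Z' β = p / f^k` with `p ∈ ℂ[s]`.  For every `s0` with `f(s0) ≠ 0` there is an evaluation
`R → ℂ`, an algebra homomorphism, under which the identity becomes
`u (Dx x + (p(s0)/f(s0)^k) E_β) = (Dx x + Y Z_{s0}) u` at `x = x0 + s0 v` (`Dat.Dx_map`,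
`Dat.Y_map`).  For `s0 = 1`: `Z_1 = ze`, `x0 + v` is generic, so `A.nonss` gives `p(1) ≠ 0`
(if `p(1) = 0`, then `u` conjugates `x` to `x + e`).  So `p ≠ 0`, and `f(s0) ≠ 0`, `p(s0) ≠ 0` for all
but finitely many `s0`.  For such `s0`, `x0 + s0 v` is generic, and `Dx x + Y Z_{s0}` is not conjugate
to `Dx x` by `not_diag`; so `goodAt` applies. -/
theorem line_good (A : Ax D) {β : ι} {x0 v : Fin n → ℂ} (hx0 : ev (D.rt β) x0 = 0)
    (hv : D.GenW β v) (hv1 : D.GenW β (x0 + v)) (Z : ι → ℂ) :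
    ∀ᶠ s in 𝓝[≠] (0 : ℂ), D.GenW β (x0 + s • v) ∧
      GoodAt D (Z + s • (D.ze - Z)) (x0 + s • v) := by
  classical
  let fac : ι → Polynomial ℂ := fun γ =>
    Polynomial.C (ev (D.rt γ) x0) + Polynomial.X * Polynomial.C (ev (D.rt γ) v)
  let f : Polynomial ℂ := ∏ γ ∈ Finset.univ.erase β, fac γ
  have hfac : ∀ γ (s : ℂ), (fac γ).eval s = ev (D.rt γ) (x0 + s • v) := by
    intro γ s
    rw [ev_add_smul]
    simp only [fac, Polynomial.eval_add, Polynomial.eval_C, Polynomial.eval_mul, Polynomial.eval_X]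
  have hf : ∀ s : ℂ, f.eval s ≠ 0 → ∀ γ, γ ≠ β → ev (D.rt γ) (x0 + s • v) ≠ 0 := by
    intro s hs γ hγ
    rw [← hfac]
    simp only [f, Polynomial.eval_prod] at hs
    exact Finset.prod_ne_zero_iff.1 hs γ (Finset.mem_erase.2 ⟨hγ, Finset.mem_univ _⟩)
  have hf1 : f.eval 1 ≠ 0 := by
    simp only [f, Polynomial.eval_prod]
    refine Finset.prod_ne_zero_iff.2 fun γ hγ => ?_
    rw [hfac, one_smul]
    exact hv1.2 γ (Finset.mem_erase.1 hγ).1
  have hgen : ∀ s : ℂ, f.eval s ≠ 0 → D.GenW β (x0 + s • v) := by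
    intro s hs
    refine ⟨?_, hf s hs⟩
    rw [ev_add_smul, hx0, hv.1, mul_zero, add_zero]
  let R := Localization.Away f
  let am : Polynomial ℂ →+* R := algebraMap (Polynomial ℂ) R
  let xR : Fin n → R := fun k => am (Polynomial.C (x0 k) + Polynomial.X * Polynomial.C (v k))
  let ZR : ι → R := fun γ => am (Polynomial.C (Z γ) + Polynomial.X * Polynomial.C (D.ze γ - Z γ))
  have hxR : ∀ γ, ev (D.rt γ) xR = am (fac γ) := by
    intro γ
    have h1 : ev (D.rt γ) xR = am (ev (D.rt γ) fun k =>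
        Polynomial.C (x0 k) + Polynomial.X * Polynomial.C (v k)) := (ev_map am _ _).symm
    rw [h1]
    congr 1
    simp only [fac, ev, mul_add, Finset.sum_add_distrib, map_sum, map_mul, Finset.mul_sum,
      map_intCast]
    congr 1
    exact Finset.sum_congr rfl fun k _ => by ring
  have hI : ∀ γ, γ ∉ ({β} : Set ι) → IsUnit (ev (D.rt γ) xR) := by
    intro γ hγ
    rw [hxR]
    refine isUnit_of_dvd_unit (map_dvd am (Finset.dvd_prod_of_mem fac
      (Finset.mem_erase.2 ⟨fun h => hγ h, Finset.mem_univ γ⟩))) ?_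
    exact IsLocalization.Away.algebraMap_isUnit f
  obtain ⟨u, Z', huU, huG, hZ', hE⟩ := A.exists_red xR {β} hI ZR
  obtain ⟨⟨p, w⟩, hp⟩ := IsLocalization.surj (Submonoid.powers f) (Z' β)
  -- the evaluation
  have hev : ∀ s : ℂ, f.eval s ≠ 0 → ∃ φ : R →ₐ[ℂ] ℂ, ∀ q : Polynomial ℂ, φ (am q) = q.eval s := by
    intro s hs
    have hu : ∀ y : Submonoid.powers f, IsUnit ((Polynomial.aeval s : Polynomial ℂ →ₐ[ℂ] ℂ) y) := by
      rintro ⟨y, m, rfl⟩
      show IsUnit ((Polynomial.aeval s : Polynomial ℂ →ₐ[ℂ] ℂ) (f ^ m))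
      rw [map_pow]
      refine IsUnit.pow m (isUnit_iff_ne_zero.2 ?_)
      rw [Polynomial.coe_aeval_eq_eval]
      exact hs
    refine ⟨IsLocalization.liftAlgHom (M := Submonoid.powers f) (S := R) hu, fun q => ?_⟩
    rw [IsLocalization.liftAlgHom_apply]
    have h1 := IsLocalization.lift_eq (M := Submonoid.powers f) (S := R)
      (g := ((Polynomial.aeval s : Polynomial ℂ →ₐ[ℂ] ℂ) : Polynomial ℂ →+* ℂ)) hu q
    rw [← Polynomial.coe_aeval_eq_eval]
    exact h1
  -- consequence of the identity at `s`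
  have hid : ∀ s : ℂ, f.eval s ≠ 0 → ∃ (U : Matrix (Fin N) (Fin N) ℂ) (c m : ℂ), UpUni U ∧
      m ≠ 0 ∧ c * m = p.eval s ∧
      U * (D.Dx (x0 + s • v) + c • D.E β) =
        (D.Dx (x0 + s • v) + D.Y (Z + s • (D.ze - Z))) * U := by
    intro s hs
    obtain ⟨φ, hφ⟩ := hev s hs
    have hU : UpUni (u.map φ) := by
      constructor
      · intro i j hij
        rw [Matrix.map_apply, huU.1 i j hij, map_zero]
      · intro i
        rw [Matrix.map_apply, huU.2, map_one]
    have hx : (fun k => (φ : R →+* ℂ) (xR k)) = x0 + s • v := by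
      funext k
      have h1 := hφ (Polynomial.C (x0 k) + Polynomial.X * Polynomial.C (v k))
      have h2 : (φ : R →+* ℂ) (xR k) = φ (am (Polynomial.C (x0 k) +
        Polynomial.X * Polynomial.C (v k))) := rfl
      rw [h2, h1]
      simp only [Polynomial.eval_add, Polynomial.eval_C, Polynomial.eval_mul, Polynomial.eval_X,
        Pi.add_apply, Pi.smul_apply, smul_eq_mul]
    have hZ : (fun γ => φ (ZR γ)) = Z + s • (D.ze - Z) := by
      funext γ
      have h1 := hφ (Polynomial.C (Z γ) + Polynomial.X * Polynomial.C (D.ze γ - Z γ))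
      have h2 : φ (ZR γ) = φ (am (Polynomial.C (Z γ) +
        Polynomial.X * Polynomial.C (D.ze γ - Z γ))) := rfl
      rw [h2, h1]
      simp
    have hYZ : D.Y (fun γ => φ (Z' γ)) = φ (Z' β) • D.E β := by
      ext i j
      rw [D.Y_apply, Finset.sum_eq_single β]
      · rfl
      · intro γ _ hγ
        rw [hZ' γ (fun h => hγ h), map_zero, zero_mul]
      · intro h; exact absurd (Finset.mem_univ β) h
    have hDxm : (D.Dx xR).map φ = D.Dx (x0 + s • v) := by
      rw [← hx]
      exact D.Dx_map (φ : R →+* ℂ) xR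
    have hmul : ∀ M M' : Matrix (Fin N) (Fin N) R, (M * M').map φ = M.map φ * M'.map φ :=
      fun M M' => Matrix.map_mul (f := (φ : R →+* ℂ))
    have hadd : ∀ M M' : Matrix (Fin N) (Fin N) R, (M + M').map φ = M.map φ + M'.map φ :=
      fun M M' => Matrix.map_add φ (map_add φ) M M'
    have hE' := congrArg (fun M : Matrix (Fin N) (Fin N) R => M.map φ) hE
    simp only [hmul, hadd, hDxm, D.Y_map, hYZ, hZ] at hE'
    refine ⟨u.map φ, φ (Z' β), φ (am w), hU, ?_, ?_, hE'⟩
    · obtain ⟨w, m, rfl⟩ := w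
      show φ (am (f ^ m)) ≠ 0
      rw [hφ, Polynomial.eval_pow]
      exact pow_ne_zero _ hs
    · rw [← hφ p, ← map_mul]
      exact congrArg φ hp
  have hp1 : p.eval 1 ≠ 0 := by
    intro h0
    obtain ⟨U, c, m, hU, hm, hcm, hUE⟩ := hid 1 hf1
    rw [h0] at hcm
    have hc : c = 0 := (mul_eq_zero.1 hcm).resolve_right hm
    rw [hc, zero_smul, add_zero, one_smul, one_smul, add_sub_cancel] at hUE
    exact A.nonss β (x0 + v) hv1 ⟨U, by rw [hU.det]; exact isUnit_one, hUE⟩
  have hq0 : p * f ≠ 0 := by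
    intro h0
    have h1 := congrArg (Polynomial.eval (1 : ℂ)) h0
    rw [Polynomial.eval_mul, Polynomial.eval_zero] at h1
    exact mul_ne_zero hp1 hf1 h1
  have hfin : {s : ℂ | (p * f).eval s = 0}.Finite := by
    refine Set.Finite.subset ((p * f).rootSet_finite ℂ) fun s hs => ?_
    rw [Polynomial.mem_rootSet]
    exact ⟨hq0, by rw [Polynomial.coe_aeval_eq_eval]; exact hs⟩
  have hev0 : ∀ᶠ s in 𝓝[≠] (0 : ℂ), (p * f).eval s ≠ 0 := by
    have hcl : IsClosed ({s : ℂ | (p * f).eval s = 0} \ {0}) := (hfin.subset Set.sdiff_subset).isClosed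
    have hmem : ({s : ℂ | (p * f).eval s = 0} \ {0})ᶜ ∈ 𝓝 (0 : ℂ) :=
      hcl.isOpen_compl.mem_nhds (fun h => h.2 rfl)
    filter_upwards [mem_nhdsWithin_of_mem_nhds hmem, self_mem_nhdsWithin] with s hs hs0 h0
    exact hs ⟨h0, hs0⟩
  filter_upwards [hev0] with s hs
  rw [Polynomial.eval_mul] at hs
  have hfs : f.eval s ≠ 0 := right_ne_zero_of_mul hs
  have hps : p.eval s ≠ 0 := left_ne_zero_of_mul hs
  refine ⟨hgen s hfs, goodAt A (hgen s hfs) _ ?_⟩
  rintro ⟨g, hg, hgE⟩
  obtain ⟨U, c, m, hU, hm, hcm, hUE⟩ := hid s hfs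
  have hc : c ≠ 0 := by
    rintro rfl
    rw [zero_mul] at hcm
    exact hps hcm.symm
  refine not_diag A (hgen s hfs).1 hc ⟨U⁻¹ * g, ?_, ?_⟩
  · rw [Matrix.det_mul, hU.inv.det, one_mul]
    exact hg
  · calc U⁻¹ * g * D.Dx (x0 + s • v) = U⁻¹ * (g * D.Dx (x0 + s • v)) := Matrix.mul_assoc _ _ _
      _ = U⁻¹ * ((D.Dx (x0 + s • v) + D.Y (Z + s • (D.ze - Z))) * (U * U⁻¹) * g) := by
          rw [hgE, hU.mul_inv, Matrix.mul_one]
      _ = U⁻¹ * ((D.Dx (x0 + s • v) + D.Y (Z + s • (D.ze - Z))) * U) * (U⁻¹ * g) := by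
          simp only [Matrix.mul_assoc]
      _ = (U⁻¹ * U) * (D.Dx (x0 + s • v) + c • D.E β) * (U⁻¹ * g) := by
          rw [← hUE]; simp only [Matrix.mul_assoc]
      _ = _ := by rw [hU.inv_mul, Matrix.one_mul]

end good

end Pool.Agent.MTXD
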