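import Pool.Agent.MTD.PoleB
import Pool.Agent.MTX.D.GoodB

/-! # MTX/D : the one-parameter families in the centraliser

Compare `Pool/Agent/MP_c45d35_ag/PoleB.lean`, `PoleC.lean` (there with the Cayley transform; here
with the exponential). -/

namespace Pool.Agent.MTXD

open Pool.Agent.MTD

open Matrix Filter Topology
open Pool.Agent.MP_c45d35_ag (chi UpUni LowUni chi_add chi_mul chi_zero chi_one chi_inv chi_map
  chi_neg)

section exps
variable {n N : ℕ} {ι : Type} {D : Dat n N ι}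

variable [Fintype ι]

theorem hC_mul_ue (A : Ax D) {z : Fin n → ℂˣ} (hz : ∀ γ, chi (D.rt γ) z = 1) (c : ℂ)
    {x : Fin n → ℂ} (hx : D.Reg x) :
    hC D z c x * D.ueC x = D.ueC x * D.Tt (thu z c x) := by
  have hconj := A.ueC_conj hx
  have hu := A.mul_inv (A.ueC_isG x)
  have hu' := A.inv_mul (A.ueC_isG x)
  have hunit : IsUnit (D.ueC x) := ⟨⟨D.ueC x, (D.ueC x)⁻¹, hu, hu'⟩, rfl⟩
  -- `z` commutes with `ueC`
  have hTe : D.Tt z * (D.Dx x + D.e) = (D.Dx x + D.e) * D.Tt z := by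
    rw [Matrix.mul_add, Matrix.add_mul, D.Tt_Dx_comm]
    congr 1
    have h1 := A.Tt_Y z D.ze
    have h2 : (fun β => ((chi (D.rt β) z : ℂˣ) : ℂ) * D.ze β) = D.ze := by
      funext β
      rw [hz β]
      simp
    rw [h2] at h1
    exact h1
  have hTu : D.Tt z * D.ueC x = D.ueC x * D.Tt z := by
    set v := D.Tt z * D.ueC x * D.Tt z⁻¹ with hv
    have hvU : UpUni v := by
      constructor
      · intro i j hij
        rw [hv]
        unfold Dat.Tt
        rw [Matrix.mul_diagonal, Matrix.diagonal_mul, (A.ueC_upUni x).1 i j hij]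
        ring
      · intro i
        rw [hv]
        unfold Dat.Tt
        rw [Matrix.mul_diagonal, Matrix.diagonal_mul, (A.ueC_upUni x).2 i, mul_one, ← Units.val_mul,
          ← chi_mul, _root_.mul_inv_cancel, chi_one, Units.val_one]
    have hvG : D.IsG v := A.mul _ _ (A.mul _ _ (A.torus z) (A.ueC_isG x)) (A.torus _)
    have hvc : v * D.Dx x = (D.Dx x + D.e) * v := by
      calc v * D.Dx x = D.Tt z * (D.ueC x * D.Dx x) * D.Tt z⁻¹ := by
            rw [hv, Matrix.mul_assoc, D.Tt_Dx_comm]; simp only [Matrix.mul_assoc]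
        _ = (D.Tt z * (D.Dx x + D.e)) * D.ueC x * D.Tt z⁻¹ := by
            rw [hconj]; simp only [Matrix.mul_assoc]
        _ = (D.Dx x + D.e) * v := by rw [hTe, hv]; simp only [Matrix.mul_assoc]
    have h1 := A.ueC_unique hx hvU hvG hvc
    calc D.Tt z * D.ueC x = D.Tt z * D.ueC x * (D.Tt z⁻¹ * D.Tt z) := by
          rw [D.Tt_inv_mul, Matrix.mul_one]
      _ = v * D.Tt z := by rw [hv]; simp only [Matrix.mul_assoc]
      _ = D.ueC x * D.Tt z := by rw [h1]
  -- the exponential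
  have hexp : NormedSpace.exp (c • (D.Dx x + D.e)) * D.ueC x =
      D.ueC x * NormedSpace.exp (c • D.Dx x) := by
    have h1 : c • (D.Dx x + D.e) = D.ueC x * (c • D.Dx x) * (D.ueC x)⁻¹ := by
      rw [Matrix.mul_smul, Matrix.smul_mul, hconj, Matrix.mul_assoc, hu, Matrix.mul_one]
    rw [h1, Matrix.exp_conj _ _ hunit, Matrix.mul_assoc, hu', Matrix.mul_one]
  have hdiag : NormedSpace.exp (c • D.Dx x) =
      Matrix.diagonal fun i => Complex.exp (c * ev (D.wt i) x) := by
    unfold Dat.Dx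
    rw [← Matrix.diagonal_smul, Matrix.exp_diagonal]
    congr 1
    funext i
    rw [Pi.coe_exp]
    simp only [Pi.smul_apply, smul_eq_mul]
    exact (congrFun Complex.exp_eq_exp_ℂ _).symm
  unfold hC
  rw [Matrix.mul_assoc, hexp, ← Matrix.mul_assoc, hTu, Matrix.mul_assoc, hdiag]
  congr 1
  unfold Dat.Tt
  rw [Matrix.diagonal_mul_diagonal]
  congr 1
  funext i
  rw [chi_thu]
  rfl

theorem hC_pow_mul_ue (A : Ax D) {z : Fin n → ℂˣ} (hz : ∀ γ, chi (D.rt γ) z = 1) (c : ℂ)
    {x : Fin n → ℂ} (hx : D.Reg x) (j : ℕ) :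
    hC D z c x ^ j * D.ueC x = D.ueC x * D.Tt (thu z c x ^ j) := by
  rw [D.Tt_pow]
  induction j with
  | zero => simp
  | succ j ih =>
    rw [pow_succ, Matrix.mul_assoc, hC_mul_ue A hz c hx, ← Matrix.mul_assoc, ih, Matrix.mul_assoc,
      ← pow_succ]

end exps

end Pool.Agent.MTXD
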