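import Pool.Agent.MTD.PoleC
import Pool.Agent.MTX.D.PoleB

/-! # MTX/D : the limit argument at a wall

Port of `Pool/Agent/MP_c45d35_ag/PoleD.lean`. -/

namespace Pool.Agent.MTXD

open Pool.Agent.MTD

open Matrix Filter Topology
open Pool.Agent.MP_c45d35_ag (chi UpUni LowUni chi_add chi_mul chi_zero chi_one chi_inv chi_map
  chi_neg chi_pow)

section limit
variable {n N : ℕ} {ι : Type} [Fintype ι] {D : Dat n N ι} {b : ℕ}

theorem uC_isG (A : Ax D) (Z : ι → ℂ) (x : Fin n → ℂ) : D.IsG (uC D Z x) := by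
  unfold uC
  split_ifs with h
  · exact h.choose_spec.2.1
  · exact A.one

theorem uC_conj (A : Ax D) (Z : ι → ℂ) {x : Fin n → ℂ} (hx : D.Reg x) :
    uC D Z x * D.Dx x = (D.Dx x + D.Y Z) * uC D Z x := by
  have h : ∃ u : Matrix (Fin N) (Fin N) ℂ, UpUni u ∧ D.IsG u ∧
      u * D.Dx x = (D.Dx x + D.Y Z) * u := A.exists_u x (A.isUnit_reg hx) Z
  unfold uC
  rw [dif_pos h]
  exact h.choose_spec.2.2

/-- the point `k u(x + Y(Z))` -/
noncomputable def gC (A : Ax D) (k : Fin b → D.Gs) (Z : Fin b → ι → ℂ)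
    (x : Fin n → ℂ) : Fin b → D.Gs := fun a =>
  ⟨(k a).1 * uC D (Z a) x, A.mul _ _ (k a).2 (uC_isG A _ _)⟩

/-- the function to be shown polynomial -/
noncomputable def FF (A : Ax D) (P : MvPolynomial (Idx N (b + 1)) ℂ) (lam : Fin n → ℤ)
    (k : Fin (b + 1) → D.Gs) (Z : Fin (b + 1) → ι → ℂ) (x : D.RegX) : ℂ :=
  Eu D lam x.1 * cf D P lam (gC A k Z x.1, x)

theorem PhiC_eq (A : Ax D) {P : MvPolynomial (Idx N (b + 1)) ℂ} (hP : InvP D (b + 1) P)
    {z : Fin n → ℂˣ} (hz : ∀ γ, chi (D.rt γ) z = 1) (c : ℂ)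
    (k : Fin (b + 1) → D.Gs) (Z : Fin (b + 1) → ι → ℂ)
    (C : Fin (b + 1) → (Fin n → ℂ) → Matrix (Fin N) (Fin N) ℂ)
    (δ : Fin (b + 1) → Fin n → ℂˣ) (x : D.RegX)
    (hCδ : ∀ a, C a x.1 * D.ueC x.1 = uC D (Z a) x.1 * D.Tt (δ a)) (j : ℕ) :
    PhiC D P z c k C j x.1 = ∑ κ ∈ supp D P,
      (((∏ a, chi κ (δ a) : ℂˣ) : ℂ) * cf D P κ (gC A k Z x.1, x)) * (av z c κ x.1) ^ j := by
  -- the point `g'`
  set g' : Fin (b + 1) → D.Gs := fun a => ⟨(gC A k Z x.1 a).1 * D.Tt (δ a),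
    A.mul _ _ (gC A k Z x.1 a).2 (A.torus _)⟩ with hg'
  have h1 : PhiC D P z c k C j x.1 = Phi D P (g', x) (thu z c x.1 ^ j) := by
    unfold PhiC Phi
    have hfun : (fun a : Fin (b + 1) => ((k a).1 * C a x.1 *
        (if a = 0 then hC D z c x.1 ^ j else 1) * (D.pC x.1).adjugate :
          Matrix (Fin N) (Fin N) ℂ)) =
        fun a => ((g' a).1 * (if a = 0 then D.Tt (thu z c x.1 ^ j) else 1) * (D.qC x.1)⁻¹ :
          Matrix (Fin N) (Fin N) ℂ) := by
      funext a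
      have hq : (D.qC x.1)⁻¹ = (D.ueC x.1)⁻¹ * (D.pC x.1).adjugate := by
        rw [Dat.qC, Matrix.mul_inv_rev, A.inv_eq (A.pC_isG x.1)]
      show (k a).1 * C a x.1 * (if a = 0 then hC D z c x.1 ^ j else 1) * (D.pC x.1).adjugate =
        (k a).1 * uC D (Z a) x.1 * D.Tt (δ a) *
          (if a = 0 then D.Tt (thu z c x.1 ^ j) else 1) * (D.qC x.1)⁻¹
      rw [hq, Matrix.mul_assoc (k a).1 (uC D (Z a) x.1), ← hCδ a]
      have hui := A.mul_inv (A.ueC_isG x.1)
      by_cases ha : a = 0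
      · rw [if_pos ha, if_pos ha]
        have h2 := hC_pow_mul_ue A hz c x.2 j
        calc (k a).1 * C a x.1 * hC D z c x.1 ^ j * (D.pC x.1).adjugate =
            (k a).1 * C a x.1 * (hC D z c x.1 ^ j * (D.ueC x.1 * (D.ueC x.1)⁻¹)) *
              (D.pC x.1).adjugate := by
              rw [hui, Matrix.mul_one]
          _ = (k a).1 * C a x.1 * ((hC D z c x.1 ^ j * D.ueC x.1) * (D.ueC x.1)⁻¹) *
              (D.pC x.1).adjugate := by
              simp only [Matrix.mul_assoc]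
          _ = _ := by rw [h2]; simp only [Matrix.mul_assoc]
      · rw [if_neg ha, if_neg ha]
        calc (k a).1 * C a x.1 * 1 * (D.pC x.1).adjugate =
            (k a).1 * C a x.1 * (D.ueC x.1 * (D.ueC x.1)⁻¹) * (D.pC x.1).adjugate := by
              rw [hui]
          _ = _ := by simp only [Matrix.mul_assoc, Matrix.one_mul]
    simp only [hfun]
  rw [h1, Phi_eq_sum (subset_refl _)]
  refine Finset.sum_congr rfl fun κ _ => ?_
  rw [chi_pow, Units.val_pow_eq_pow_val, chi_thu,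
    cf_torus A hP κ (gC A k Z x.1) g' x δ (fun a => rfl)]

/-- elimination of all weights but one -/
theorem elimination (A : Ax D) {P : MvPolynomial (Idx N (b + 1)) ℂ} (hP : InvP D (b + 1) P)
    {z : Fin n → ℂˣ} (hz : ∀ γ, chi (D.rt γ) z = 1) (c : ℂ)
    (k : Fin (b + 1) → D.Gs) (Z : Fin (b + 1) → ι → ℂ)
    (C : Fin (b + 1) → (Fin n → ℂ) → Matrix (Fin N) (Fin N) ℂ)
    (δ : Fin (b + 1) → Fin n → ℂˣ) (x : D.RegX)
    (hCδ : ∀ a, C a x.1 * D.ueC x.1 = uC D (Z a) x.1 * D.Tt (δ a)) (μ : Fin n → ℤ) :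
    ∑ j ∈ Finset.range ((supp D P).card + 1),
      (∏ κ ∈ (supp D P).erase μ, (Polynomial.X - Polynomial.C (av z c κ x.1))).coeff j *
        PhiC D P z c k C j x.1 =
      ((∏ a, chi μ (δ a) : ℂˣ) : ℂ) * cf D P μ (gC A k Z x.1, x) *
        ∏ κ ∈ (supp D P).erase μ, (av z c μ x.1 - av z c κ x.1) := by
  classical
  set Q := ∏ κ ∈ (supp D P).erase μ, (Polynomial.X - Polynomial.C (av z c κ x.1)) with hQ
  have hdeg : Q.natDegree < (supp D P).card + 1 := by
    have h1 : Q.natDegree = ((supp D P).erase μ).card := by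
      rw [hQ, Polynomial.natDegree_prod_of_monic _ _ (fun κ _ => Polynomial.monic_X_sub_C _)]
      simp
    rw [h1]
    have := Finset.card_erase_le (s := supp D P) (a := μ)
    omega
  have h1 : ∀ w : ℂ, ∑ j ∈ Finset.range ((supp D P).card + 1), Q.coeff j * w ^ j = Q.eval w :=
    fun w => (Polynomial.eval_eq_sum_range' hdeg w).symm
  have h2 : ∀ w : ℂ, Q.eval w = ∏ κ ∈ (supp D P).erase μ, (w - av z c κ x.1) := by
    intro w
    rw [hQ, Polynomial.eval_prod]
    simp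
  simp only [PhiC_eq A hP hz c k Z C δ x hCδ, Finset.mul_sum]
  rw [Finset.sum_comm]
  have h3 : ∀ κ ∈ supp D P, ∑ j ∈ Finset.range ((supp D P).card + 1), Q.coeff j *
      ((((∏ a, chi κ (δ a) : ℂˣ) : ℂ) * cf D P κ (gC A k Z x.1, x)) * (av z c κ x.1) ^ j) =
      (((∏ a, chi κ (δ a) : ℂˣ) : ℂ) * cf D P κ (gC A k Z x.1, x)) *
        ∏ κ' ∈ (supp D P).erase μ, (av z c κ x.1 - av z c κ' x.1) := by
    intro κ _
    rw [← h2, ← h1, Finset.mul_sum]
    refine Finset.sum_congr rfl fun j _ => ?_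
    ring
  rw [Finset.sum_congr rfl h3]
  by_cases hμ : μ ∈ supp D P
  · rw [Finset.sum_eq_single_of_mem μ hμ]
    intro κ hκ hne
    have h0 : ∏ κ' ∈ (supp D P).erase μ, (av z c κ x.1 - av z c κ' x.1) = 0 :=
      Finset.prod_eq_zero (Finset.mem_erase.2 ⟨hne, hκ⟩) (sub_self _)
    rw [h0, mul_zero]
  · rw [cf_eq_zero hμ]
    simp only [Pi.zero_apply, mul_zero, zero_mul]
    refine Finset.sum_eq_zero fun κ hκ => ?_
    have hne : κ ≠ μ := by
      rintro rfl
      exact hμ hκ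
    have h0 : ∏ κ' ∈ (supp D P).erase μ, (av z c κ x.1 - av z c κ' x.1) = 0 :=
      Finset.prod_eq_zero (Finset.mem_erase.2 ⟨hne, hκ⟩) (sub_self _)
    rw [h0, mul_zero]

/-! ### The factors `a_μ - a_κ` -/

open Classical in
/-- the number of weights in the `α`-string below the leading weight -/
theorem string_card (A : Ax D) {P : MvPolynomial (Idx N (b + 1)) ℂ} {μ : Fin n → ℤ}
    (hμ : IsLead D P μ) (β : ι) :
    ∑ κ ∈ (supp D P).erase μ, (if ∃ k : ℤ, μ - κ = k • D.rt β then 1 else 0) ≤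
      (ev (D.cr β) μ).toNat := by
  rw [Finset.sum_ite, Finset.sum_const, Finset.sum_const_zero, add_zero, smul_eq_mul, mul_one]
  have h1 : ∀ κ ∈ ((supp D P).erase μ).filter (fun κ => ∃ k : ℤ, μ - κ = k • D.rt β),
      ∃ j : ℕ, j ∈ Finset.Icc 1 (ev (D.cr β) μ).toNat ∧ κ = μ - (j : ℤ) • D.rt β := by
    intro κ hκ
    rw [Finset.mem_filter, Finset.mem_erase] at hκ
    obtain ⟨⟨hne, hs⟩, k, hk⟩ := hκ
    have hκ' : κ = μ - k • D.rt β := by rw [← hk]; abel
    have hb := string_bound A hμ β k (hκ' ▸ hs)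
    have hk0 : k ≠ 0 := by
      rintro rfl
      apply hne
      rw [hκ']; simp
    refine ⟨k.toNat, ?_, ?_⟩
    · rw [Finset.mem_Icc]
      omega
    · rw [Int.toNat_of_nonneg hb.1, hκ']
  have h2 : ((supp D P).erase μ).filter (fun κ => ∃ k : ℤ, μ - κ = k • D.rt β) ⊆
      (Finset.Icc 1 (ev (D.cr β) μ).toNat).image fun j : ℕ => μ - (j : ℤ) • D.rt β := by
    intro κ hκ
    obtain ⟨j, hj, hκ'⟩ := h1 κ hκ
    exact Finset.mem_image.2 ⟨j, hj, hκ'.symm⟩
  refine (Finset.card_le_card h2).trans (Finset.card_image_le.trans ?_)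
  simp

/-- **The limit argument.** -/
theorem wall_limit (A : Ax D) {P : MvPolynomial (Idx N (b + 1)) ℂ} (hP : InvP D (b + 1) P)
    (lam : Fin n → ℤ) (hlead : IsLead D P lam) (β : ι)
    {x0 v : Fin n → ℂ}
    (hx0 : ∀ M : Finset (Fin n → ℤ), M = (supp D P).image (fun κ => lam - κ) → GenM D β M x0)
    (hv : D.Reg v)
    (k : Fin (b + 1) → D.Gs) (Z : Fin (b + 1) → ι → ℂ)
    (hGA : ∀ a, GoodAt D (Z a) x0)
    (L : List ι) (G : ℂ → ℂ) (hG : ContinuousAt G 0)
    (hGF : ∀ t, ∀ h : D.Reg (x0 + t • v), G t =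
      ((β :: L).map fun β' => ev (D.rt β') (x0 + t • v)).prod * FF A P lam k Z ⟨x0 + t • v, h⟩) :
    G 0 = 0 := by
  classical
  set μ := lam with hμdef
  have hgen := hx0 _ rfl
  -- the matrices `C_a`
  choose δ C hCcont hδcont hCδ' using hGA
  -- the central element
  obtain ⟨z, hz⟩ : ∃ z, ZC D β z := A.zc β
  -- the parameter
  obtain ⟨c, hc0, hc2⟩ := exists_c β hz
    (((supp D P).filter fun κ => ∀ k : ℤ, μ - κ ≠ k • D.rt β).image fun κ => μ - κ)
    (x0 := x0) ⟨hgen.1, fun ν hν => hgen.2 ν (by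
      obtain ⟨κ, hκ, rfl⟩ := Finset.mem_image.1 hν
      exact Finset.mem_image_of_mem _ (Finset.mem_filter.1 hκ).1)⟩ (by
      intro ν hν
      obtain ⟨κ, hκ, rfl⟩ := Finset.mem_image.1 hν
      exact (Finset.mem_filter.1 hκ).2)
  have hcM : ∀ κ ∈ supp D P, (∀ k : ℤ, μ - κ ≠ k • D.rt β) → av z c (μ - κ) x0 ≠ 1 :=
    fun κ hκ hk => hc2 _ (Finset.mem_image_of_mem _ (Finset.mem_filter.2 ⟨hκ, hk⟩))
  have hx00 : x0 + (0 : ℂ) • v = x0 := by simp
  have hcurve := continuous_curve x0 v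
  have hCδ : ∀ᶠ t in 𝓝 (0 : ℂ), ∀ a, D.Reg (x0 + t • v) →
      C a (x0 + t • v) * D.ueC (x0 + t • v) =
        uC D (Z a) (x0 + t • v) * D.Tt (δ a (x0 + t • v)) := by
    rw [Filter.eventually_all]
    intro a
    have h1 := hcurve.tendsto 0
    rw [hx00] at h1
    filter_upwards [h1.eventually (hCδ' a)] with t ht hreg
    exact ht hreg _ _ (uC_upUni (Z a) _) (uC_isG A _ _) (A.ueC_upUni _) (A.ueC_isG _)
      (uC_conj A (Z a) hreg) (A.ueC_conj hreg)
  -- the factors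
  choose! D' hDc hD0 hDeq using fun κ hκ => factor_diff (P := P) (μ := μ) β hgen.1.1 hv hz.1 hc0
    hcM κ hκ
  obtain ⟨E, hEc, hE⟩ := Eu_order (D := D) β lam x0 v hgen.1.1
  set e : (Fin n → ℤ) → ℕ := fun κ => if ∃ k : ℤ, μ - κ = k • D.rt β then 1 else 0 with he
  have hetot : ∑ κ ∈ (supp D P).erase μ, e κ ≤ (ev (D.cr β) μ).toNat := string_card A hlead β
  set et := ∑ κ ∈ (supp D P).erase μ, e κ with het
  set d := (ev (D.cr β) μ).toNat with hd
  -- the sum `S(t)`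
  set S : ℂ → ℂ := fun t => ∑ j ∈ Finset.range ((supp D P).card + 1),
    (∏ κ ∈ (supp D P).erase μ, (Polynomial.X - Polynomial.C (av z c κ (x0 + t • v)))).coeff j *
      PhiC D P z c k C j (x0 + t • v) with hS
  have hcav : ∀ ν, ContinuousAt (fun t : ℂ => av z c ν (x0 + t • v)) 0 := fun ν =>
    ((continuous_av z c ν).comp hcurve).continuousAt
  have hScont : ContinuousAt S 0 := by
    refine tendsto_finsetSum _ fun j _ => ?_
    refine ContinuousAt.mul (continuousAt_coeff _ (fun κ t => av z c κ (x0 + t • v)) 0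
      (fun κ _ => hcav κ) j) ?_
    exact ContinuousAt.comp (f := fun t : ℂ => x0 + t • v) (x := (0 : ℂ))
      (by rw [hx00]; exact continuousAt_PhiC P z c k hCcont j) hcurve.continuousAt
  -- the constant
  set c1 : ℂ → ℂ := fun t => ((∏ a, chi μ (δ a (x0 + t • v)) : ℂˣ) : ℂ) with hc1def
  have hc1ne : ∀ t, c1 t ≠ 0 := fun t => Units.ne_zero _
  have hc1cont : ContinuousAt c1 0 := by
    have h1 : c1 = fun t => ∏ a, ∏ k, ((δ a (x0 + t • v) k : ℂˣ) : ℂ) ^ μ k := by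
      funext t
      simp only [hc1def, Units.coe_prod, chi, Units.val_zpow_eq_zpow_val]
    rw [h1]
    refine tendsto_finsetProd _ fun a _ => tendsto_finsetProd _ fun k' _ => ?_
    refine ContinuousAt.zpow₀ ?_ _ (Or.inl (Units.ne_zero _))
    exact ContinuousAt.comp (f := fun t : ℂ => x0 + t • v) (x := (0 : ℂ))
      (g := fun x => ((δ a x k' : ℂˣ) : ℂ)) (by rw [hx00]; exact hδcont a k') hcurve.continuousAt
  set Lp : ℂ → ℂ := fun t => (L.map fun β' => ev (D.rt β') (x0 + t • v)).prod with hLp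
  have hLpc : Continuous Lp := by
    rw [hLp]
    clear hGF
    induction L with
    | nil => simpa using continuous_const
    | cons β' L ih =>
      simp only [List.map_cons, List.prod_cons]
      refine Continuous.mul ?_ (ih rfl)
      simp only [ev_add_smul]
      fun_prop
  -- the key identity
  have key : ∀ᶠ t in 𝓝[≠] (0 : ℂ), G t * c1 t * ∏ κ ∈ (supp D P).erase μ, D' κ t =
      t ^ (d - et + 1) * (ev (D.rt β) v * Lp t * E t * S t) := by
    filter_upwards [eventually_reg x0 v hv, hCδ.filter_mono nhdsWithin_le_nhds,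
      self_mem_nhdsWithin] with t hreg hCδt ht
    have ht0 : t ≠ 0 := ht
    have hD : ∀ κ ∈ (supp D P).erase μ,
        av z c μ (x0 + t • v) - av z c κ (x0 + t • v) = t ^ e κ * D' κ t :=
      fun κ hκ => hDeq κ hκ t
    have h1 := elimination A hP hz.1 c k Z C (fun a => δ a (x0 + t • v)) ⟨x0 + t • v, hreg⟩
      (fun a => hCδt a hreg) μ
    have h2 := hGF t hreg
    have h3 : ∏ κ ∈ (supp D P).erase μ, (av z c μ (x0 + t • v) - av z c κ (x0 + t • v)) =
        t ^ et * ∏ κ ∈ (supp D P).erase μ, D' κ t := by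
      rw [Finset.prod_congr rfl hD, Finset.prod_mul_distrib, Finset.prod_pow_eq_pow_sum]
    simp only at h1
    rw [h3] at h1
    rw [List.map_cons, List.prod_cons, ev_add_smul, hgen.1.1, zero_add] at h2
    have h4 : FF A P lam k Z ⟨x0 + t • v, hreg⟩ = t ^ d * E t *
        cf D P μ (gC A k Z (x0 + t • v), ⟨x0 + t • v, hreg⟩) := by
      unfold FF
      simp only [hE]
      rfl
    rw [h4] at h2
    have hS' : S t = c1 t * cf D P μ (gC A k Z (x0 + t • v), ⟨x0 + t • v, hreg⟩) *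
        (t ^ et * ∏ κ ∈ (supp D P).erase μ, D' κ t) := h1
    have hdet : t ^ d = t ^ (d - et) * t ^ et := by
      rw [← pow_add]; congr 1; omega
    rw [h2, hS', hdet, pow_succ]
    ring
  have hlimL : Tendsto (fun t => G t * c1 t * ∏ κ ∈ (supp D P).erase μ, D' κ t) (𝓝[≠] (0 : ℂ))
      (𝓝 (G 0 * c1 0 * ∏ κ ∈ (supp D P).erase μ, D' κ 0)) := by
    have : ContinuousAt (fun t => G t * c1 t * ∏ κ ∈ (supp D P).erase μ, D' κ t) 0 :=
      (hG.mul hc1cont).mul (tendsto_finsetProd _ fun κ hκ => hDc κ hκ)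
    exact this.tendsto.mono_left nhdsWithin_le_nhds
  have hlimR : Tendsto (fun t : ℂ => t ^ (d - et + 1) * (ev (D.rt β) v * Lp t * E t * S t))
      (𝓝[≠] (0 : ℂ))
      (𝓝 ((0 : ℂ) ^ (d - et + 1) * (ev (D.rt β) v * Lp 0 * E 0 * S 0))) := by
    have : ContinuousAt (fun t : ℂ => t ^ (d - et + 1) *
        (ev (D.rt β) v * Lp t * E t * S t)) 0 :=
      (continuousAt_id.pow _).mul (((continuousAt_const.mul hLpc.continuousAt).mul
        hEc.continuousAt).mul hScont)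
    exact this.tendsto.mono_left nhdsWithin_le_nhds
  have hfin := tendsto_nhds_unique (hlimL.congr' key) hlimR
  rw [pow_succ, mul_zero, zero_mul] at hfin
  have hDne : ∏ κ ∈ (supp D P).erase μ, D' κ 0 ≠ 0 :=
    Finset.prod_ne_zero_iff.2 fun κ hκ => hD0 κ hκ
  have := (mul_eq_zero.1 hfin).resolve_right hDne
  exact (mul_eq_zero.1 this).resolve_right (hc1ne 0)

end limit

end Pool.Agent.MTXD
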