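import Pool.Agent.MTD.Int
import Pool.Agent.MTX.D.PoleD
import Pool.Agent.MP_c45d35_ag.Int

/-! # MTX/D : integrality of the functions with the pole bound property

Port of `Pool/Agent/MP_c45d35_ag/Int.lean`. -/

namespace Pool.Agent.MTXD

open Pool.Agent.MTD

open Matrix
open Pool.Agent.MP_c45d35_ag (chi UpUni LowUni chi_add chi_mul chi_zero chi_one chi_inv chi_map
  isIntegral_of_valuations)
open Pool.Agent.MP_c45d35_ag.BlockL (adjoin_sep hom_aeval aeval_eval aeval_mem UpUni_reflect
  UpUni_map)

/-! ## Generators -/

/-! ## The coordinate algebra of `G^b × 𝔱^reg` -/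

section coord
variable {n N : ℕ} {ι : Type} (D : Dat n N ι) (b : ℕ)

variable {D b}

end coord

/-! ## Transfer of the pole bound property -/

section transfer
variable {n N : ℕ} {ι : Type} [Fintype ι] {D : Dat n N ι} {b : ℕ}

end transfer

end Pool.Agent.MTXD
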