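import Pool.Agent.MTD.Int2
import Pool.Agent.MTX.D.Int

/-! # MTX/D : integrality of the functions with the pole bound property, continued -/

namespace Pool.Agent.MTXD

open Pool.Agent.MTD

open Matrix
open Pool.Agent.MP_c45d35_ag (chi UpUni LowUni chi_add chi_mul chi_zero chi_one chi_inv chi_map
  isIntegral_of_valuations chi_pow)
open Pool.Agent.MP_c45d35_ag.BlockL (adjoin_sep hom_aeval aeval_eval aeval_mem UpUni_reflect
  UpUni_map)

section main
variable {n N : ℕ} {ι κ : Type} [Fintype ι] [Fintype κ] {D : Dat n N ι}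

/-- The decomposition of one factor. -/
theorem block (A : Ax D) {G : Gens N κ} (B : GAx D G) {K : Type} [Field K] [Algebra ℂ K]
    (V : ValuationSubring K)
    (hV : ∀ z : ℂ, algebraMap ℂ K z ∈ V) (g : Matrix (Fin N) (Fin N) K) (hg : D.IsG g)
    (x : Fin n → K) (hn : ∀ i j, (g * D.Dx x * g.adjugate) i j ∈ V) :
    ∃ (k u : Matrix (Fin N) (Fin N) K) (Z : ι → K) (t : Fin n → Kˣ), D.IsG k ∧
      (∀ i j, k i j ∈ V) ∧ (∀ β, Z β ∈ V) ∧
      (UpUni u ∧ D.IsG u ∧ u * D.Dx x = (D.Dx x + D.Y Z) * u ∧ g = k * u * D.Tt t) ∧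
      (∀ i, x i ∈ V) ∧
      ∀ l : κ, ∃ (I : Fin (G.m l) → Fin N) (δ : K), δ ≠ 0 ∧ δ⁻¹ ∈ V ∧
        (g.submatrix I (G.J l)).det = δ * ((chi (G.lam D l) t : Kˣ) : K) := by
  obtain ⟨k, c, hk, hkV, hc, hcu, hgkc⟩ := A.iwa V hV g hg
  obtain ⟨u, t, hu, huG, hcut⟩ := A.exists_UT c hc hcu
  have hkadj : k.adjugate * k = 1 := by rw [← A.inv_eq hk]; exact A.inv_mul hk
  have huinv : u * u.adjugate = 1 := by rw [← A.inv_eq huG]; exact A.mul_inv huG
  -- `Z`
  obtain ⟨Z, hZ⟩ := A.conj u x 0 huG hu.1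
  rw [D.Y_zero, add_zero] at hZ
  have hkV' : ∀ i j, k.adjugate i j ∈ V := by
    intro i j
    let kV : Matrix (Fin N) (Fin N) V := Matrix.of fun i j => ⟨k i j, hkV i j⟩
    have h1 : kV.map (algebraMap V K) = k := by ext i j; rfl
    have h2 : k.adjugate i j = algebraMap V K (kV.adjugate i j) := by
      have h3 := RingHom.map_adjugate (algebraMap V K) kV
      rw [RingHom.mapMatrix_apply, RingHom.mapMatrix_apply, h1] at h3
      rw [← h3]
      rfl
    rw [h2]
    exact (kV.adjugate i j).2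
  have mulV : ∀ A B : Matrix (Fin N) (Fin N) K, (∀ i j, A i j ∈ V) → (∀ i j, B i j ∈ V) →
      ∀ i j, (A * B) i j ∈ V := by
    intro A B hA hB i j
    rw [Matrix.mul_apply]
    exact sum_mem fun l _ => mul_mem (hA i l) (hB l j)
  have hTadj : D.Tt t * D.Dx x * (D.Tt t).adjugate = D.Dx x := by
    rw [← A.inv_eq (A.torus t), D.Tt_inv, D.Tt_Dx_comm, Matrix.mul_assoc, D.Tt_mul_inv,
      Matrix.mul_one]
  have hconj : k.adjugate * (g * D.Dx x * g.adjugate) * k = D.Dx x + D.Y Z := by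
    have h1 : g.adjugate = (D.Tt t).adjugate * (u.adjugate * k.adjugate) := by
      rw [hgkc, hcut, Matrix.adjugate_mul_distrib, Matrix.adjugate_mul_distrib, Matrix.mul_assoc]
    calc k.adjugate * (g * D.Dx x * g.adjugate) * k =
        (k.adjugate * k) * (u * (D.Tt t * D.Dx x * (D.Tt t).adjugate) * u.adjugate) *
          (k.adjugate * k) := by
          rw [h1]
          conv_lhs => rw [hgkc, hcut]
          simp only [Matrix.mul_assoc]
      _ = D.Dx x + D.Y Z := by
          rw [hkadj, hTadj, Matrix.one_mul, Matrix.mul_one, hZ, Matrix.mul_assoc, huinv,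
            Matrix.mul_one]
  have hMV : ∀ i j, (D.Dx x + D.Y Z) i j ∈ V := by
    rw [← hconj]
    exact mulV _ _ (mulV _ _ hkV' hn) hkV
  refine ⟨k, u, Z, t, hk, hkV, ?_, ⟨hu, huG, hZ, ?_⟩, ?_, ?_⟩
  · intro β
    obtain ⟨i, j, hij⟩ := A.exists_entry β
    have hlt := A.E_supp_lt hij
    have h1 := hMV i j
    have h2 : (D.Dx x + D.Y Z) i j = Z β * algebraMap ℂ K (D.E β i j) := by
      rw [Matrix.add_apply, A.Y_entry Z hij, Dat.Dx, Matrix.diagonal_apply_ne _ (ne_of_lt hlt),
        zero_add]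
    rw [h2] at h1
    have h3 := mul_mem h1 (hV (D.E β i j)⁻¹)
    rw [mul_assoc, ← map_mul, mul_inv_cancel₀ hij, map_one, mul_one] at h3
    exact h3
  · rw [hgkc, hcut, Matrix.mul_assoc]
  · intro i
    obtain ⟨j, hj⟩ := A.wt_std i
    have h1 := hMV j j
    rw [A.DxY_diag, hj] at h1
    have h2 : ev (Pi.single i 1) x = x i := by
      unfold ev
      rw [Finset.sum_eq_single i]
      · simp
      · intro l _ hl
        simp [hl]
      · simp
    rw [h2] at h1
    exact h1
  · intro l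
    obtain ⟨I, hI1, hI2⟩ := exists_unit_minor V k k.adjugate hkV hkV' hkadj _ (G.J l) (B.J_inj l)
    refine ⟨I, _, hI1, hI2, ?_⟩
    rw [hgkc, B.minor l k c hc hcu I]
    congr 1
    unfold Gens.lam
    rw [chi_sum, Units.coe_prod]
    refine Finset.prod_congr rfl fun j _ => ?_
    rw [hcut]
    unfold Dat.Tt
    rw [Matrix.mul_diagonal, hu.2, one_mul]

theorem ex_inj (A : Ax D) {μ ν : Fin n → ℤ} (h : D.Dom μ) (h' : D.Dom ν)
    (he : ex D μ = ex D ν) : μ = ν := by
  have h1 : μ - ν = 0 := A.cr_sep _ fun β => by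
    have h2 := DFunLike.congr_fun he β
    rw [ex_apply, ex_apply] at h2
    rw [ev_sub]
    have h3 := congrArg (fun a : ℕ => (a : ℤ)) h2
    simp only [Int.toNat_of_nonneg (h β), Int.toNat_of_nonneg (h' β)] at h3
    rw [h3, sub_self]
  exact sub_eq_zero.1 h1

theorem fn_momG (A : Ax D) {b : ℕ} (a : Fin b) (i j : Fin N) (y : XX D b) :
    GamT.fn (momG D a i j) y = ((y.1 a).1 * D.Dx y.2.1 * (y.1 a).1⁻¹) i j := by
  have h4 : (gG D a * D.Dx (xG D b) * (gG D a).adjugate).map (ptEval y : GamT D b →+* ℂ) =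
      (y.1 a).1 * D.Dx y.2.1 * (y.1 a).1⁻¹ := by
    have h5 := RingHom.map_adjugate (ptEval y : GamT D b →+* ℂ) (gG D a)
    rw [RingHom.mapMatrix_apply, RingHom.mapMatrix_apply, pt_gG] at h5
    rw [Matrix.map_mul, Matrix.map_mul, D.Dx_map, h5, pt_gG, A.inv_eq (y.1 a).2]
    congr 3
    funext k
    exact pt_xG y k
  exact congrFun (congrFun h4 i) j

theorem main_val (A : Ax D) {G : Gens N κ} (B : GAx D G) {b : ℕ} (hb : 0 < b)
    (Rp : Subalgebra ℂ (MvPolynomial ι (GamT D b)))
    (h1 : ∀ (a : Fin b) (i j : Fin N), MvPolynomial.C (momG D a i j) ∈ Rp)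
    (h2 : ∀ (l : κ) (I : Fin b → Fin (G.m l) → Fin N),
      MvPolynomial.monomial (ex D (G.lam D l)) (minG D G l I) ∈ Rp)
    (lam : Fin n → ℤ) (hlam : D.Dom lam) (f : GamT D b) (hf : PB D b lam (GamT.fn f))
    {K : Type} [Field K] [Algebra ℂ K] (φ : MvPolynomial ι (GamT D b) →ₐ[ℂ] K)
    (hφ : ∀ d ∈ nonZeroDivisors (MvPolynomial ι (GamT D b)), φ d ≠ 0)
    (V : ValuationSubring K) (hR : ∀ r ∈ Rp, φ r ∈ V) :
    φ (MvPolynomial.monomial (ex D lam) f) ∈ V := by
  have hV : ∀ z : ℂ, algebraMap ℂ K z ∈ V := by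
    intro z
    rw [← φ.commutes z]
    exact hR _ (Rp.algebraMap_mem z)
  obtain ⟨θ, hθ⟩ : ∃ θ : GamT D b →ₐ[ℂ] K, ∀ c, θ c = φ (MvPolynomial.C c) :=
    ⟨φ.comp (IsScalarTower.toAlgHom ℂ (GamT D b) (MvPolynomial ι (GamT D b))),
      fun c => rfl⟩
  -- the generic point
  obtain ⟨g, hg⟩ : ∃ g : Fin b → Matrix (Fin N) (Fin N) K,
    g = fun a => (gG D a).map (θ : GamT D b →+* K) := ⟨_, rfl⟩
  obtain ⟨x, hx⟩ : ∃ x : Fin n → K, x = fun k => θ (xG D b k) := ⟨_, rfl⟩
  have hgG : ∀ a, D.IsG (g a) := fun a => by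
    rw [hg]
    exact (isG_gG a).map θ
  have hθP : ∀ P, θ (toGam D b P) = MvPolynomial.aeval (coX g x) P := by
    intro P
    rw [toGam_eq, hom_aeval, hg, hx]
    congr 1
    congr 1
    funext i
    rcases i with p | p <;> rfl
  have hreg : ∀ β, ev (D.rt β) x ≠ 0 := by
    intro β he
    have hd : (MvPolynomial.C (ev (D.rt β) (xG D b) : GamT D b) :
        MvPolynomial ι (GamT D b)) ∈ nonZeroDivisors _ := by
      rw [mem_nonZeroDivisors_iff_right]
      intro p hp
      ext s
      have h3 := congrArg (MvPolynomial.coeff s) hp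
      rw [mul_comm, MvPolynomial.coeff_C_mul, MvPolynomial.coeff_zero] at h3
      rw [MvPolynomial.coeff_zero]
      refine gam_ext _ _ fun y => ?_
      have h4 := congrArg (ptEval y) h3
      rw [map_mul] at h4
      have h5 : ptEval y (ev (D.rt β) (xG D b)) = ev (D.rt β) y.2.1 := by
        have := ev_map (ptEval y : GamT D b →+* ℂ) (D.rt β) (xG D b)
        refine this.trans ?_
        congr 1
        funext k
        exact pt_xG y k
      rw [h5, map_zero] at h4
      rw [map_zero]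
      exact (mul_eq_zero.1 h4).resolve_left (y.2.2 β)
    refine hφ _ hd ?_
    rw [← hθ]
    have h6 : θ (ev (D.rt β) (xG D b)) = ev (D.rt β) x := by
      rw [hx]
      exact ev_map (θ : GamT D b →+* K) _ _
    rw [h6]
    exact he
  -- the entries of `g x g⁻¹`
  have hn : ∀ a i j, (g a * D.Dx x * (g a).adjugate) i j ∈ V := by
    intro a i j
    have h3 : (g a * D.Dx x * (g a).adjugate) i j = θ (momG D a i j) := by
      have h4 : (gG D a * D.Dx (xG D b) * (gG D a).adjugate).map (θ : GamT D b →+* K) =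
          g a * D.Dx x * (g a).adjugate := by
        have h5 := RingHom.map_adjugate (θ : GamT D b →+* K) (gG D a)
        rw [RingHom.mapMatrix_apply, RingHom.mapMatrix_apply] at h5
        rw [Matrix.map_mul, Matrix.map_mul, D.Dx_map, h5, hg, hx]
        rfl
      exact (congrFun (congrFun h4 i) j).symm
    rw [h3, hθ]
    exact hR _ (h1 a i j)
  -- decompositions
  choose k u Z t hk hkV hZV hrel hxV hmin using fun a => block A B V hV (g a) (hgG a) x (hn a)
  obtain ⟨P, hP⟩ := toGam_surj D b f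
  obtain ⟨H, hH⟩ := PB_transfer lam (GamT.fn f) P (fun y => by rw [← hP]; exact fn_toGam P y) hf
  have hval := hH k g u Z t x hk hgG hreg hrel
  rw [← hθP, hP, hθ] at hval
  have hHV : MvPolynomial.aeval (Sum.elim (parOf k Z) x) H ∈ V := by
    refine aeval_mem V hV _ ?_ H
    intro i
    rcases i with (p | p) | p
    · exact hkV _ _ _
    · exact hZV _ _
    · exact hxV ⟨0, hb⟩ p
  -- the factors
  set w : (Fin n → ℤ) → K := fun μ => φ (MvPolynomial.monomial (ex D μ) 1) *
    ((∏ a, chi μ (t a) : Kˣ) : K) with hw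
  have hY : ∀ l : κ, w (G.lam D l) ∈ V := by
    intro l
    choose I δ hδ hδV hdet using fun a => hmin a l
    have h3 := hR _ (h2 l I)
    have h4 : (MvPolynomial.monomial (ex D (G.lam D l)) (minG D G l I) :
        MvPolynomial ι (GamT D b)) =
        MvPolynomial.C (minG D G l I) * MvPolynomial.monomial (ex D (G.lam D l)) 1 := by
      rw [MvPolynomial.C_mul_monomial, mul_one]
    rw [h4, map_mul, ← hθ] at h3
    have h5 : ∀ a, θ (((gG D a).submatrix (I a) (G.J l)).det) = δ a *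
        ((chi (G.lam D l) (t a) : Kˣ) : K) := by
      intro a
      rw [← hdet a]
      have h6 := RingHom.map_det (θ : GamT D b →+* K) ((gG D a).submatrix (I a) (G.J l))
      refine h6.trans ?_
      rw [hg]
      rfl
    have h5' : θ (minG D G l I) = (∏ a, δ a) * ∏ a, ((chi (G.lam D l) (t a) : Kˣ) : K) := by
      unfold minG
      rw [map_prod, Finset.prod_congr rfl (fun a _ => h5 a), Finset.prod_mul_distrib]
    rw [h5'] at h3
    have h7 : (∏ a, (δ a)⁻¹) ∈ V := prod_mem fun a _ => hδV a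
    have h8 := mul_mem h7 h3
    have h9 : (∏ a, (δ a)⁻¹) * ∏ a, δ a = 1 := by
      rw [← Finset.prod_mul_distrib]
      exact Finset.prod_eq_one fun a _ => inv_mul_cancel₀ (hδ a)
    have h10 : (∏ a, (δ a)⁻¹) * ((∏ a, δ a) * (∏ a, ((chi (G.lam D l) (t a) : Kˣ) : K)) *
        φ (MvPolynomial.monomial (ex D (G.lam D l)) 1)) = w (G.lam D l) := by
      rw [hw]
      simp only [Units.coe_prod]
      linear_combination (φ (MvPolynomial.monomial (ex D (G.lam D l)) 1) *
        ∏ a, ((chi (G.lam D l) (t a) : Kˣ) : K)) * h9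
    rw [h10] at h8
    exact h8
  -- multiplicativity of `w`
  have hw0 : w 0 = 1 := by
    rw [hw]
    simp only [ex_zero, chi_zero, Finset.prod_const_one, Units.val_one, mul_one]
    exact map_one φ
  have hwadd : ∀ μ ν, D.Dom μ → D.Dom ν → w (μ + ν) = w μ * w ν := by
    intro μ ν hμ hν
    rw [hw]
    simp only [ex_add hμ hν, chi_add, Finset.prod_mul_distrib, Units.val_mul]
    have : (MvPolynomial.monomial (ex D μ + ex D ν) (1 : GamT D b)) =
        MvPolynomial.monomial (ex D μ) 1 * MvPolynomial.monomial (ex D ν) 1 := by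
      rw [MvPolynomial.monomial_mul, one_mul]
    rw [this, map_mul]
    ring
  have hwn : ∀ (k : ℕ) μ, D.Dom μ → w (k • μ) = w μ ^ k := by
    intro k μ hμ
    induction k with
    | zero => rw [zero_smul, hw0, pow_zero]
    | succ k ih => rw [succ_nsmul, hwadd _ _ (dom_nsmul k hμ) hμ, ih, pow_succ]
  have hwsum : ∀ (s : Finset κ) (c : κ → ℕ), w (∑ l ∈ s, c l • G.lam D l) =
      ∏ l ∈ s, w (G.lam D l) ^ c l := by
    classical
    intro s c
    induction s using Finset.induction_on with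
    | empty => rw [Finset.sum_empty, Finset.prod_empty, hw0]
    | insert a s ha ih =>
      rw [Finset.sum_insert ha, Finset.prod_insert ha, hwadd _ _ (dom_nsmul _ (B.dom a))
        (dom_sum s fun i _ => dom_nsmul _ (B.dom i)), hwn _ _ (B.dom a), ih]
  have hwV : w lam ∈ V := by
    obtain ⟨M, hM, hcone⟩ := B.cone
    obtain ⟨c, hc⟩ := hcone lam hlam
    have h3 : w lam ^ M ∈ V := by
      rw [← hwn M lam hlam, hc, hwsum]
      exact prod_mem fun l _ => pow_mem (hY l) _
    rcases V.mem_or_inv_mem (w lam) with h | h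
    · exact h
    · by_cases h0 : w lam = 0
      · rw [h0]; exact zero_mem V
      · have h5 : w lam ^ M * ((w lam)⁻¹) ^ (M - 1) = w lam := by
          obtain ⟨M', rfl⟩ : ∃ M', M = M' + 1 := ⟨M - 1, by omega⟩
          rw [Nat.add_sub_cancel, pow_succ, inv_pow]
          field_simp
        rw [← h5]
        exact mul_mem h3 (pow_mem h _)
  -- conclusion
  have hmon : (MvPolynomial.monomial (ex D lam) f : MvPolynomial ι (GamT D b)) =
      MvPolynomial.C f * MvPolynomial.monomial (ex D lam) 1 := by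
    rw [MvPolynomial.C_mul_monomial, mul_one]
  rw [hmon, map_mul, hval]
  have hfin : ((∏ a, chi lam (t a) : Kˣ) : K) * MvPolynomial.aeval (Sum.elim (parOf k Z) x) H *
      φ (MvPolynomial.monomial (ex D lam) 1) =
      w lam * MvPolynomial.aeval (Sum.elim (parOf k Z) x) H := by
    rw [hw]
    ring
  rw [hfin]
  exact mul_mem hwV hHV

theorem integral_of_PB (A : Ax D) {G : Gens N κ} (B : GAx D G) {b : ℕ} (hb : 0 < b)
    (Rp : Subalgebra ℂ (MvPolynomial ι (GamT D b)))
    (h1 : ∀ (a : Fin b) (i j : Fin N), MvPolynomial.C (momG D a i j) ∈ Rp)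
    (h2 : ∀ (l : κ) (I : Fin b → Fin (G.m l) → Fin N),
      MvPolynomial.monomial (ex D (G.lam D l)) (minG D G l I) ∈ Rp)
    (lam : Fin n → ℤ) (hlam : D.Dom lam) (f : GamT D b) (hf : PB D b lam (GamT.fn f)) :
    IsIntegral Rp (MvPolynomial.monomial (ex D lam) f) := by
  refine isIntegral_of_valuations Rp _ ?_
  intro K _ φ hφ V hR
  let _ : Algebra ℂ K := (φ.comp (algebraMap ℂ (MvPolynomial ι (GamT D b)))).toAlgebra
  exact main_val A B hb Rp h1 h2 lam hlam f hf
    ({ φ with commutes' := fun z => rfl } : MvPolynomial ι (GamT D b) →ₐ[ℂ] K) hφ V hR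

end main

end Pool.Agent.MTXD
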