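import Pool.Agent.MTD.Fin
import Pool.Agent.MTX.D.Int2
import Pool.Agent.MP_c45d35_ag.ICL

/-! # MTX/D : finite generation

Port of `Pool/Agent/MP_c45d35_ag/Sagbi.lean`, `FinA.lean`, `FinB.lean`, `FinC.lean`. -/

namespace Pool.Agent.MTXD

open Pool.Agent.MTD

open Matrix Filter Topology
open Pool.Agent.MP_c45d35_ag (chi UpUni LowUni chi_add chi_mul chi_zero chi_one chi_inv chi_map
  fg_of_integral)

section final
variable {n N : ℕ} {ι : Type} [Fintype ι] {D : Dat n N ι} {b : ℕ}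

theorem invP_of_rep (A : Ax D) {P : MvPolynomial (Idx N b) ℂ} {F : Pt D.Gs D.S b → ℂ}
    (hF : F ∈ MTR D.Gs D.S b) (h : Rep D P F) : InvP D b P := by
  intro g g' hh s hg hs hc hprod hg'
  have hg'G : ∀ a, D.IsG (g' a) := fun a => by rw [hg' a]; exact A.mul _ _ (hg a) (hc a).1
  have h1 := h (fun a => ⟨g' a, hg'G a⟩, ⟨s, hs⟩)
  have h2 := h (fun a => ⟨g a, hg a⟩, ⟨s, hs⟩)
  have h3 := hF.2 (fun a => ⟨g a, hg a⟩, ⟨s, hs⟩) (fun a => ⟨g' a, hg'G a⟩, ⟨s, hs⟩) hh hc hprod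
    rfl hg'
  rw [h1, h2] at h3
  exact h3

/-! ### Functions with the pole bound are polynomial -/

theorem exists_gam_of_PB (A : Ax D) (lam : Fin n → ℤ) (f : XX D b → ℂ) (hf : PB D b lam f) :
    ∃ c : GamT D b, GamT.fn c = f := by
  obtain ⟨H, hH⟩ := hf
  set φ : Par N ι b ⊕ Fin n → MvPolynomial (IdxX n N b) ℂ :=
    Sum.elim (Sum.elim (fun p => MvPolynomial.X (Sum.inl p)) (fun _ => 0))
      (fun k => MvPolynomial.X (Sum.inr k)) with hφ
  refine ⟨toGam D b (MvPolynomial.bind₁ φ H), ?_⟩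
  funext y
  rw [fn_toGam]
  have h1 := hH y.1 y.1 (fun _ => 0) (fun _ => 1) (fun _ => 1) y.2 (fun a => by
    refine ⟨Pool.Agent.MP_c45d35_ag.UpUni.one, A.one, ?_, ?_⟩
    · rw [D.Y_zero, add_zero, Matrix.one_mul, Matrix.mul_one]
    · rw [D.Tt_one, Matrix.mul_one, Matrix.mul_one])
  simp only [chi_one, Finset.prod_const_one, Units.val_one, one_mul] at h1
  have h2 : f y = f (y.1, y.2) := rfl
  rw [h2, h1]
  have h3 : MvPolynomial.eval (coX (fun a => (y.1 a).1) y.2.1) (MvPolynomial.bind₁ φ H) =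
      MvPolynomial.eval (fun i => MvPolynomial.eval (coX (fun a => (y.1 a).1) y.2.1) (φ i)) H := by
    rw [MvPolynomial.eval, MvPolynomial.eval₂Hom_bind₁]
    rfl
  rw [h3]
  congr 1
  refine congrArg _ ?_
  funext i
  rcases i with (p | p) | p
  · simp [hφ, coX, parOf]
  · simp [hφ, coX, parOf]
  · simp [hφ, coX]

theorem exists_coef (A : Ax D) {f : ↥(MTR D.Gs D.S (b + 1))}
    {P : MvPolynomial (Idx N (b + 1)) ℂ}
    (hP : Rep D P f.1) (lam : Fin n → ℤ) (hlead : IsLead D P lam) :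
    ∃ c : GamT D (b + 1), Good0 D b lam f c := by
  obtain ⟨c, hc⟩ := exists_gam_of_PB A lam _ (pole_bound A (invP_of_rep A f.2 hP) lam hlead)
  exact ⟨c, P, hP, hlead, fun y => by rw [hc]⟩

/-! ### A function with empty support vanishes -/

theorem Phi_one (A : Ax D) (P : MvPolynomial (Idx N (b + 1)) ℂ) (g : Fin (b + 1) → D.Gs)
    (x : D.RegX) :
    Phi D P ((fun a => ⟨(g a).1 * D.qC x.1, A.mul _ _ (g a).2 (A.qC_isG x.1)⟩), x) 1 =
      MvPolynomial.eval (co (fun a => (g a).1) (D.sC x.1)) P := by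
  unfold Phi
  have h : (fun a : Fin (b + 1) => ((g a).1 * D.qC x.1 *
      (if a = 0 then (D.Tt (1 : Fin n → ℂˣ) : Matrix (Fin N) (Fin N) ℂ) else 1) *
        (D.qC x.1)⁻¹)) = fun a => (g a).1 := by
    funext a
    have : (if a = 0 then (D.Tt (1 : Fin n → ℂˣ) : Matrix (Fin N) (Fin N) ℂ) else 1) = 1 := by
      rw [D.Tt_one, ite_self]
    rw [this, Matrix.mul_one, Matrix.mul_assoc, A.mul_inv (A.qC_isG x.1), Matrix.mul_one]
  show MvPolynomial.eval (co (fun a : Fin (b + 1) => ((g a).1 * D.qC x.1 *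
      (if a = 0 then (D.Tt (1 : Fin n → ℂˣ) : Matrix (Fin N) (Fin N) ℂ) else 1) *
        (D.qC x.1)⁻¹)) (D.sC x.1)) P = _
  rw [h]

theorem eval_eq_zero_of_supp (A : Ax D) {P : MvPolynomial (Idx N (b + 1)) ℂ}
    (h : supp D P = ∅) (g : Fin (b + 1) → D.Gs) (x : Fin n → ℂ) :
    MvPolynomial.eval (co (fun a => (g a).1) (D.sC x)) P = 0 := by
  have hreg : ∀ x : D.RegX, MvPolynomial.eval (co (fun a => (g a).1) (D.sC x.1)) P = 0 := by
    intro x
    rw [← Phi_one A, Phi_eq_sum (subset_refl _), h, Finset.sum_empty]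
  obtain ⟨v, hv⟩ := exists_reg A
  have hc : Continuous fun t : ℂ =>
      MvPolynomial.eval (co (fun a => (g a).1) (D.sC (x + t • v))) P := by
    refine (MvPolynomial.continuous_eval P).comp (continuous_pi fun i => ?_)
    rcases i with i | ⟨i, j⟩
    · exact continuous_const
    · exact (continuous_id.matrix_elem i j).comp (continuous_sC.comp (continuous_curve x v))
  have hz : ∀ᶠ t in 𝓝[≠] (0 : ℂ),
      MvPolynomial.eval (co (fun a => (g a).1) (D.sC (x + t • v))) P = 0 := by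
    filter_upwards [eventually_reg x v hv] with t ht
    exact hreg ⟨_, ht⟩
  have h1 : Tendsto (fun t : ℂ => MvPolynomial.eval (co (fun a => (g a).1) (D.sC (x + t • v))) P)
      (𝓝[≠] (0 : ℂ)) (𝓝 (MvPolynomial.eval (co (fun a => (g a).1) (D.sC x)) P)) := by
    have h0 := hc.tendsto 0
    simp only [zero_smul, add_zero] at h0
    exact h0.mono_left nhdsWithin_le_nhds
  have h2 : Tendsto (fun t : ℂ => MvPolynomial.eval (co (fun a => (g a).1) (D.sC (x + t • v))) P)
      (𝓝[≠] (0 : ℂ)) (𝓝 0) :=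
    (tendsto_const_nhds (x := (0 : ℂ)) (f := 𝓝[≠] (0 : ℂ))).congr' (hz.mono fun t ht => ht.symm)
  exact tendsto_nhds_unique h1 h2

theorem eq_zero_of_supp (A : Ax D) {f : ↥(MTR D.Gs D.S (b + 1))}
    {P : MvPolynomial (Idx N (b + 1)) ℂ}
    (hP : Rep D P f.1) (h : supp D P = ∅) : f = 0 := by
  refine Subtype.ext ?_
  funext y
  obtain ⟨x, hx⟩ := A.exists_sC y.2.2
  rw [hP y, hx]
  exact eval_eq_zero_of_supp A h y.1 x

/-- the lexicographically largest weight -/
theorem exists_lead (A : Ax D) {P : MvPolynomial (Idx N (b + 1)) ℂ} (h : supp D P ≠ ∅) :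
    ∃ μ : Fin n → ℤ, D.Dom μ ∧ μ ∈ supp D P ∧ IsLead D P μ := by
  obtain ⟨μ, hμ, hmax⟩ := Finset.exists_max_image (supp D P) (fun κ => toLex κ)
    (Finset.nonempty_iff_ne_empty.2 h)
  exact ⟨μ, dom_of_lead A (fun κ hκ => hmax κ hκ) hμ, hμ, fun κ hκ => hmax κ hκ⟩

theorem good0_desc (A : Ax D) (lam : Fin n → ℤ) (f : ↥(MTR D.Gs D.S (b + 1)))
    (h : Good0 D b lam f 0) :
    f = 0 ∨ ∃ μ c', D.Dom μ ∧ toLex μ < toLex lam ∧ Good0 D b μ f c' := by
  obtain ⟨P, h1, h2, h3⟩ := h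
  by_cases hs : supp D P = ∅
  · exact Or.inl (eq_zero_of_supp A h1 hs)
  · right
    obtain ⟨μ, hdom, hμ, hlead⟩ := exists_lead A hs
    obtain ⟨c', hc'⟩ := exists_coef A h1 μ hlead
    refine ⟨μ, c', hdom, ?_, hc'⟩
    refine lt_of_le_of_ne (h2 _ hμ) fun heq => ?_
    have h4 : μ = lam := toLex_inj.1 heq
    rw [h4] at hμ
    obtain ⟨y, hy⟩ := mem_supp.1 hμ
    have h5 := h3 y
    rw [map_zero] at h5
    exact hy ((mul_eq_zero.1 h5.symm).resolve_left (Eu_ne_zero lam y.2.2))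

theorem good0_ex (A : Ax D) (f : ↥(MTR D.Gs D.S (b + 1))) :
    ∃ μ c, D.Dom μ ∧ Good0 D b μ f c := by
  obtain ⟨P, hP⟩ := f.2.1
  by_cases hs : supp D P = ∅
  · have : f = 0 := eq_zero_of_supp A hP hs
    rw [this]
    exact ⟨0, 0, dom_zero, good0_zero 0⟩
  · obtain ⟨μ, hdom, _, hlead⟩ := exists_lead A hs
    obtain ⟨c', hc'⟩ := exists_coef A (f := f) hP μ hlead
    exact ⟨μ, c', hdom, hc'⟩

/-! ### The order on the exponents -/

theorem ltL_wf (A : Ax D) {κ : Type} [Fintype κ] {G : Gens N κ} (B : GAx D G) :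
    WellFounded (ltL D) := by
  classical
  obtain ⟨M, hM, hcone⟩ := B.cone
  rw [wellFounded_iff_isEmpty_descending_chain]
  refine ⟨fun ⟨f, hf⟩ => ?_⟩
  choose μ' μ hμ' hμ he' he hlt using hf
  -- `μ k` is the weight of `f k`, and `μ' k` that of `f (k + 1)`
  have hnext : ∀ k, μ' k = μ (k + 1) := fun k =>
    ex_inj A (hμ' k) (hμ (k + 1)) (by rw [he', he])
  have hanti : ∀ k, toLex (μ (k + 1)) < toLex (μ k) := fun k => by
    rw [← hnext]; exact hlt k
  have hanti' : StrictAnti fun k => toLex (μ k) := strictAnti_nat_of_succ_lt hanti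
  choose c hc using fun k => hcone (μ k) (hμ k)
  obtain ⟨i, j, hij, hle⟩ := wellQuasiOrdered_le (α := κ → ℕ) c
  have h1 : M • μ j = M • μ i + ∑ k, (c j k - c i k) • G.lam D k := by
    rw [hc, hc, ← Finset.sum_add_distrib]
    refine Finset.sum_congr rfl fun k _ => ?_
    rw [← add_smul, Nat.add_sub_cancel' (hle k)]
  have h2 : 0 ≤ toLex (∑ k, (c j k - c i k) • G.lam D k) := by
    have h3 : ∀ s : Finset κ, 0 ≤ toLex (∑ k ∈ s, (c j k - c i k) • G.lam D k) := by
      intro s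
      induction s using Finset.induction_on with
      | empty => exact le_of_eq (by rw [Finset.sum_empty]; rfl)
      | insert a s ha ih =>
        rw [Finset.sum_insert ha, toLex_add]
        refine add_nonneg ?_ ih
        have : toLex ((c j a - c i a) • G.lam D a) = (c j a - c i a) • toLex (G.lam D a) := rfl
        rw [this]
        exact nsmul_nonneg (B.lpos a) _
    exact h3 Finset.univ
  have h4 : toLex (M • μ i) ≤ toLex (M • μ j) := by
    rw [h1, toLex_add]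
    exact le_add_of_nonneg_right h2
  have h5 : toLex (M • μ j) < toLex (M • μ i) := by
    have h6 := hanti' hij
    have h7 : ∀ ν : Fin n → ℤ, toLex (M • ν) = M • toLex ν := fun _ => rfl
    rw [h7, h7]
    exact nsmul_lt_nsmul_right hM.ne' h6
  exact absurd h4 (not_le.2 h5)

/-! ### The algebra of leading coefficients -/

theorem good_add (A : Ax D) (m : ι →₀ ℕ) (f : ↥(MTR D.Gs D.S (b + 1))) (c : GamT D (b + 1))
    (f' : ↥(MTR D.Gs D.S (b + 1))) (c' : GamT D (b + 1)) (h : Good D b m f c)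
    (h' : Good D b m f' c') : Good D b m (f + f') (c + c') := by
  rcases h with ⟨μ, h1, h2, h3⟩ | ⟨rfl, rfl⟩
  · rcases h' with ⟨μ', h1', h2', h3'⟩ | ⟨rfl, rfl⟩
    · have he : μ' = μ := ex_inj A h1' h1 (by rw [h2, h2'])
      subst he
      exact Or.inl ⟨μ', h1, h2, good0_add _ _ _ _ _ h3 h3'⟩
    · rw [add_zero, add_zero]
      exact Or.inl ⟨μ, h1, h2, h3⟩
  · rw [zero_add, zero_add]
    exact h'

theorem good_desc (A : Ax D) (m : ι →₀ ℕ) (f : ↥(MTR D.Gs D.S (b + 1)))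
    (h : Good D b m f 0) : f = 0 ∨ ∃ m' c', ltL D m' m ∧ Good D b m' f c' := by
  rcases h with ⟨μ, h1, h2, h3⟩ | ⟨rfl, _⟩
  · rcases good0_desc A μ f h3 with h | ⟨μ', c', h4, h5, h6⟩
    · exact Or.inl h
    · exact Or.inr ⟨ex D μ', c', ⟨μ', μ, h4, h1, rfl, h2, h5⟩, Or.inl ⟨μ', h4, rfl, h6⟩⟩
  · exact Or.inl rfl

theorem good_ex (A : Ax D) (f : ↥(MTR D.Gs D.S (b + 1))) : ∃ m c, Good D b m f c := by
  obtain ⟨μ, c, h1, h2⟩ := good0_ex A f
  exact ⟨ex D μ, c, Or.inl ⟨μ, h1, rfl, h2⟩⟩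

theorem good_sum (A : Ax D) {σ : Type*} (s : Finset σ) (m : ι →₀ ℕ)
    (c : σ → GamT D (b + 1)) (h : ∀ i ∈ s, ∃ f, Good D b m f (c i)) :
    ∃ f, Good D b m f (∑ i ∈ s, c i) := by
  classical
  induction s using Finset.induction_on with
  | empty => exact ⟨0, by simpa using good_zero m⟩
  | insert i s hi ih =>
    obtain ⟨f, hf⟩ := h i (Finset.mem_insert_self i s)
    obtain ⟨f', hf'⟩ := ih fun j hj => h j (Finset.mem_insert_of_mem hj)
    rw [Finset.sum_insert hi]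
    exact ⟨f + f', good_add A m f _ f' _ hf hf'⟩

/-- the algebra of leading coefficients -/
noncomputable def BB (A : Ax D) (b : ℕ) : Subalgebra ℂ (MvPolynomial ι (GamT D (b + 1))) where
  carrier := {p | ∀ m, ∃ f, Good D b m f (MvPolynomial.coeff m p)}
  mul_mem' := by
    classical
    intro p q hp hq m
    rw [MvPolynomial.coeff_mul]
    refine good_sum A _ m _ fun ij hij => ?_
    obtain ⟨f, hf⟩ := hp ij.1
    obtain ⟨f', hf'⟩ := hq ij.2
    rw [← Finset.HasAntidiagonal.mem_antidiagonal.1 hij]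
    exact ⟨f * f', good_mul _ _ f _ f' _ hf hf'⟩
  add_mem' := by
    intro p q hp hq m
    obtain ⟨f, hf⟩ := hp m
    obtain ⟨f', hf'⟩ := hq m
    exact ⟨f + f', by rw [MvPolynomial.coeff_add]; exact good_add A m f _ f' _ hf hf'⟩
  algebraMap_mem' := by
    classical
    intro r m
    rw [MvPolynomial.algebraMap_apply, MvPolynomial.coeff_C]
    split_ifs with h
    · subst h
      refine ⟨r • 1, ?_⟩
      rw [Algebra.algebraMap_eq_smul_one]
      exact good_smul 0 1 1 r good_one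
    · exact ⟨0, good_zero m⟩

/-- finite generation of the algebra of leading coefficients implies that of the ring -/
theorem finiteType_of_BB (A : Ax D) {κ : Type} [Fintype κ] {G : Gens N κ} (B : GAx D G)
    (h : (BB A b).FG) : Algebra.FiniteType ℂ ↥(MTR D.Gs D.S (b + 1)) :=
  sagbi (fun m f c => Good D b m f c) good_one good_zero (good_add A) good_smul good_mul (ltL D)
    (ltL_wf A B) (good_desc A) (good_ex A) (BB A b) (fun _ => Iff.rfl) h

/-! ### The moment map -/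

theorem good0_mom (A : Ax D) (a : Fin (b + 1)) (i j : Fin N) :
    ∃ f, Good0 D b 0 f (momG D a i j) := by
  have hinv : InvP D (b + 1) (momP a i j) := by
    intro g g' h s hg hs hc hp hg'
    rw [eval_momP, eval_momP]
    have h1 := (hc a).1
    have h2 : h a * s = s * h a := (hc a).2
    have h3 : g' a * s * (g' a).adjugate = g a * s * (g a).adjugate := by
      have h4 : h a * (h a).adjugate = 1 := by rw [← A.inv_eq h1]; exact A.mul_inv h1
      rw [hg' a, Matrix.adjugate_mul_distrib]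
      calc g a * h a * s * ((h a).adjugate * (g a).adjugate) =
          g a * (h a * s) * (h a).adjugate * (g a).adjugate := by simp only [Matrix.mul_assoc]
        _ = g a * s * (h a * (h a).adjugate) * (g a).adjugate := by
            rw [h2]; simp only [Matrix.mul_assoc]
        _ = _ := by rw [h4, Matrix.mul_one]
    rw [h3]
  obtain ⟨F, hF⟩ := rep_of_invP hinv
  have hexp : ∀ (y : XX D (b + 1)) (t : Fin n → ℂˣ), Phi D (momP a i j) y t =
      ∑ μ ∈ ({0} : Finset (Fin n → ℤ)),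
        ((y.1 a).1 * D.Dx y.2.1 * (y.1 a).1⁻¹) i j * ((chi μ t : ℂˣ) : ℂ) := by
    intro y t
    rw [Finset.sum_singleton, chi_zero, Units.val_one, mul_one]
    unfold Phi
    rw [eval_momP]
    set T : Matrix (Fin N) (Fin N) ℂ := if a = 0 then D.Tt t else 1 with hT
    have hTG : D.IsG T := by
      rw [hT]
      split_ifs
      · exact A.torus t
      · exact A.one
    have hTD : T * D.Dx y.2.1 = D.Dx y.2.1 * T := by
      rw [hT]
      split_ifs
      · exact D.Tt_Dx_comm t _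
      · rw [Matrix.one_mul, Matrix.mul_one]
    have hq := A.qC_isG y.2.1
    have hs : D.sC y.2.1 = D.qC y.2.1 * D.Dx y.2.1 * (D.qC y.2.1)⁻¹ := by
      rw [A.qC_conj y.2.2, Matrix.mul_assoc, A.mul_inv hq, Matrix.mul_one]
    have hG : D.IsG ((y.1 a).1 * T * (D.qC y.2.1)⁻¹) :=
      A.mul _ _ (A.mul _ _ (y.1 a).2 hTG) (A.inv _ hq)
    rw [← A.inv_eq hG, Matrix.mul_inv_rev, Matrix.mul_inv_rev, hs]
    have hqq : (D.qC y.2.1)⁻¹⁻¹ = D.qC y.2.1 := Matrix.nonsing_inv_nonsing_inv _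
      (by rw [A.det _ hq]; exact isUnit_one)
    rw [hqq]
    have h1 : (y.1 a).1 * T * (D.qC y.2.1)⁻¹ * (D.qC y.2.1 * D.Dx y.2.1 * (D.qC y.2.1)⁻¹) *
        (D.qC y.2.1 * (T⁻¹ * (y.1 a).1⁻¹)) = (y.1 a).1 * D.Dx y.2.1 * (y.1 a).1⁻¹ := by
      calc (y.1 a).1 * T * (D.qC y.2.1)⁻¹ * (D.qC y.2.1 * D.Dx y.2.1 * (D.qC y.2.1)⁻¹) *
          (D.qC y.2.1 * (T⁻¹ * (y.1 a).1⁻¹)) =
          (y.1 a).1 * T * ((D.qC y.2.1)⁻¹ * D.qC y.2.1) * D.Dx y.2.1 *
            ((D.qC y.2.1)⁻¹ * D.qC y.2.1) * (T⁻¹ * (y.1 a).1⁻¹) := by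
            simp only [Matrix.mul_assoc]
        _ = (y.1 a).1 * (T * D.Dx y.2.1) * (T⁻¹ * (y.1 a).1⁻¹) := by
            rw [A.inv_mul hq]; simp only [Matrix.mul_assoc, Matrix.one_mul]
        _ = (y.1 a).1 * D.Dx y.2.1 * (T * T⁻¹) * (y.1 a).1⁻¹ := by
            rw [hTD]; simp only [Matrix.mul_assoc]
        _ = _ := by rw [A.mul_inv hTG, Matrix.mul_one]
    rw [h1]
  obtain ⟨h1, h2⟩ := cf_of_Phi (P := momP a i j) {0}
    (fun _ y => ((y.1 a).1 * D.Dx y.2.1 * (y.1 a).1⁻¹) i j) hexp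
  refine ⟨F, momP a i j, hF, fun κ hκ => ?_, fun y => ?_⟩
  · rw [Finset.mem_singleton.1 (h2 hκ)]
  · rw [Eu_zero, one_mul, h1 0 (Finset.mem_singleton_self _), fn_momG A]

theorem C_momG_mem (A : Ax D) (a : Fin (b + 1)) (i j : Fin N) :
    (MvPolynomial.C (momG D a i j) : MvPolynomial ι (GamT D (b + 1))) ∈ BB A b := by
  classical
  intro m
  rw [MvPolynomial.coeff_C]
  split_ifs with h
  · subst h
    obtain ⟨f, hf⟩ := good0_mom A a i j
    exact ⟨f, Or.inl ⟨0, dom_zero, ex_zero, hf⟩⟩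
  · exact ⟨0, good_zero m⟩

theorem monomial_minG_mem (A : Ax D) {κ : Type} [Fintype κ] {G : Gens N κ} (B : GAx D G) (l : κ)
    (I : Fin (b + 1) → Fin (G.m l) → Fin N) :
    (MvPolynomial.monomial (ex D (G.lam D l)) (minG D G l I) :
      MvPolynomial ι (GamT D (b + 1))) ∈ BB A b := by
  classical
  intro m
  rw [MvPolynomial.coeff_monomial]
  split_ifs with h
  · subst h
    obtain ⟨P, h1, h2, h3⟩ := B.top b l I
    obtain ⟨F, hF⟩ := rep_of_invP h1
    exact ⟨F, Or.inl ⟨_, B.dom l, rfl, P, hF, h2, fun y => by rw [fn_minG, h3]⟩⟩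
  · exact ⟨0, good_zero m⟩

/-- The algebra of leading coefficients is finitely generated. -/
theorem BB_fg (A : Ax D) {κ : Type} [Fintype κ] {G : Gens N κ} (B : GAx D G) (b : ℕ) :
    (BB A b).FG := by
  classical
  set T : Set (MvPolynomial ι (GamT D (b + 1))) :=
    (Set.range fun p : Fin (b + 1) × Fin N × Fin N => MvPolynomial.C (momG D p.1 p.2.1 p.2.2)) ∪
    (Set.range fun p : (l : κ) × (Fin (b + 1) → Fin (G.m l) → Fin N) =>
      MvPolynomial.monomial (ex D (G.lam D p.1)) (minG D G p.1 p.2)) with hT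
  have hTfin : T.Finite := (Set.finite_range _).union (Set.finite_range _)
  have hfin : Algebra.FiniteType ℂ (MvPolynomial ι (GamT D (b + 1))) := by
    have h1 : Algebra.FiniteType ℂ (GamT D (b + 1)) :=
      Algebra.FiniteType.of_surjective (toGam D (b + 1)) (toGam_surj D (b + 1))
    exact h1.trans inferInstance
  refine fg_of_integral hfin (Algebra.adjoin ℂ T) (BB A b) ?_ ?_ ?_
  · exact Subalgebra.fg_def.2 ⟨T, hTfin, rfl⟩
  · refine Algebra.adjoin_le ?_
    rintro p (⟨q, rfl⟩ | ⟨q, rfl⟩)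
    · exact C_momG_mem A _ _ _
    · exact monomial_minG_mem A B _ _
  · intro p hp
    rw [← MvPolynomial.support_sum_monomial_coeff p]
    refine IsIntegral.sum _ fun m _ => ?_
    obtain ⟨f, ⟨μ, hμ, rfl, P, hrep, hlead, hc⟩ | ⟨-, h0⟩⟩ := hp m
    · refine integral_of_PB A B (Nat.succ_pos b) (Algebra.adjoin ℂ T) ?_ ?_ μ hμ _ ?_
      · intro a i j
        exact Algebra.subset_adjoin (Or.inl ⟨(a, i, j), rfl⟩)
      · intro l I
        exact Algebra.subset_adjoin (Or.inr ⟨⟨l, I⟩, rfl⟩)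
      · have h1 : GamT.fn (MvPolynomial.coeff (ex D μ) p) =
            fun y => Eu D μ y.2.1 * cf D P μ y := funext hc
        rw [h1]
        exact pole_bound A (invP_of_rep A f.2 hrep) μ hlead
    · rw [h0, MvPolynomial.monomial_zero]
      exact isIntegral_zero

/-- **Finite generation of the Moore–Tachikawa rings.** -/
theorem mt_fg (A : Ax D) {κ : Type} [Fintype κ] {G : Gens N κ} (B : GAx D G) (b : ℕ) :
    (MTR D.Gs D.S b).FG := by
  cases b with
  | zero => exact mt_fg_zero _ _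
  | succ b => exact Subalgebra.fg_iff_finiteType _ |>.2 (finiteType_of_BB A B (BB_fg A B b))

end final

end Pool.Agent.MTXD
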